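import Pool.Agent.H985.CG.Phi

/-!
# Chains `p, T(p), T(T(p)), …`, `T(x) = a x + b`, over `F_q[X]`, `q` even: the number of the irreducible
`p` for which no `T^t(p)`, `t` in a given set of times, has a prime factor of small degree (helper77, with
helper985)
-/

set_option autoImplicit false
set_option linter.all false

namespace Pool.Agent.H77.CC

open Polynomial Finset
open scoped Classical
open Pool.Agent.H694.Typ (Mn Irn PU mem_Mn mem_Irn mem_PU)
open Pool.Agent.H985.CG

variable {K : Type} [Field K]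

/-- the linear map -/
noncomputable def T (a b x : K[X]) : K[X] := a * x + b

theorem iter (a b x : K[X]) (i : ℕ) : (T a b)^[i] x = a ^ i * x + b * ∑ j ∈ range i, a ^ j := by
  induction i with
  | zero => simp
  | succ i ih =>
    rw [Function.iterate_succ_apply', ih, T, geom_sum_succ]
    ring

/-- the number of the nonzero residues `r` modulo `P` such that `P` divides some `T^(t i)(r)` -/
noncomputable def nu (a b : K[X]) {k : ℕ} (t : Fin k → ℕ) (P : K[X]) : ℕ :=
  {r : K[X] | r.degree < P.degree ∧ r ≠ 0 ∧ ∃ i, P ∣ (T a b)^[t i] r}.ncard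

/-- the monic normalisation of `a` -/
noncomputable def mo (a : K[X]) : K[X] := a * C (a.leadingCoeff)⁻¹

/-- the slopes -/
noncomputable def sl (a : K[X]) {k : ℕ} (t : Fin k → ℕ) (i : Fin k) : K[X] := mo a ^ t i

/-- the constants -/
noncomputable def co (a b : K[X]) {k : ℕ} (t : Fin k → ℕ) (i : Fin k) : K[X] :=
  C (a.leadingCoeff)⁻¹ ^ t i * (b * ∑ j ∈ range (t i), a ^ j)

theorem form (a b f : K[X]) {k : ℕ} (t : Fin k → ℕ) (i : Fin k) :
    sl a t i * f + co a b t i = C (a.leadingCoeff)⁻¹ ^ t i * (T a b)^[t i] f := by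
  rw [iter, sl, co, mo, mul_pow]
  ring

theorem unit_c {a : K[X]} (ha : a ≠ 0) (i : ℕ) : IsUnit (C (a.leadingCoeff)⁻¹ ^ i : K[X]) :=
  (isUnit_C.2 (IsUnit.mk0 _ (inv_ne_zero (mt leadingCoeff_eq_zero.1 ha)))).pow i

theorem dvd_form {a : K[X]} (ha : a ≠ 0) (b f P : K[X]) {k : ℕ} (t : Fin k → ℕ) (i : Fin k) :
    P ∣ sl a t i * f + co a b t i ↔ P ∣ (T a b)^[t i] f := by
  rw [form]
  exact (unit_c ha _).dvd_mul_left

theorem mo_monic {a : K[X]} (ha : a ≠ 0) : (mo a).Monic := monic_mul_leadingCoeff_inv ha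

theorem mo_dvd {a P : K[X]} (ha : a ≠ 0) : P ∣ mo a ↔ P ∣ a := by
  unfold mo
  have h := unit_c ha 1
  rw [pow_one] at h
  exact h.dvd_mul_right

theorem slo {a : K[X]} (ha : a ≠ 0) {k : ℕ} (t : Fin k → ℕ) : Slo (mo a) (sl a t) := by
  intro i
  refine ⟨(mo_monic ha).pow _, fun P hP hd => ?_⟩
  exact hP.prime.dvd_of_dvd_pow hd

/-- a prime factor of `a` does not divide the iterates -/
theorem not_dvd_iter {a b P : K[X]} (hab : IsCoprime a b) (hP : Irreducible P) (hPa : P ∣ a) (x : K[X]) (i : ℕ)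
    (hi : 1 ≤ i) : ¬ P ∣ (T a b)^[i] x := by
  intro h
  obtain ⟨i, rfl⟩ := Nat.exists_eq_add_of_le' hi
  rw [Function.iterate_succ_apply'] at h
  have hb : P ∣ b := by
    have h2 : P ∣ a * (T a b)^[i] x := hPa.mul_right _
    have h3 := dvd_sub h h2
    rwa [T, add_sub_cancel_left] at h3
  exact hP.not_isUnit (hab.isUnit_of_dvd' hPa hb)

section fin

variable [Fintype K]

/-- the singular product -/
noncomputable def sp (K : Type) [Field K] [Fintype K] (a b : K[X]) {k : ℕ} (t : Fin k → ℕ) (m : ℕ) : ℝ :=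
  ∏ P ∈ PU K m, (1 - (nu a b t P : ℝ) / ((Fintype.card K : ℝ) ^ P.natDegree - 1))

theorem vg_eq {a b : K[X]} (ha : a ≠ 0) (hab : IsCoprime a b) {k : ℕ} (t : Fin k → ℕ) (ht : ∀ i, 1 ≤ t i)
    (m : ℕ) : vg (mo a) m (sl a t) (co a b t) = sp K a b t m := by
  unfold vg sp
  have h1 : ∀ P : K[X], nug (sl a t) (co a b t) P = (nu a b t P : ℝ) := by
    intro P
    unfold nug nu
    congr 1
    congr 1
    ext r
    simp only [Set.mem_setOf_eq, dvd_form ha]
  rw [prod_filter]
  apply prod_congr rfl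
  intro P hP
  rw [mem_PU] at hP
  by_cases hPa : P ∣ mo a
  · rw [if_neg (not_not.2 hPa)]
    rw [mo_dvd ha] at hPa
    have h2 : nu a b t P = 0 := by
      unfold nu
      have e : {r : K[X] | r.degree < P.degree ∧ r ≠ 0 ∧ ∃ i, P ∣ (T a b)^[t i] r} = ∅ := by
        rw [Set.eq_empty_iff_forall_notMem]
        rintro r ⟨-, -, i, hi⟩
        exact not_dvd_iter hab hP.2.1 hPa r (t i) (ht i) hi
      rw [e, Set.ncard_empty]
    rw [h2, Nat.cast_zero, zero_div, sub_zero]
  · rw [if_pos hPa, h1]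

/-- the irreducible `p` of degree `n` such that no `T^(t i)(p)` has an irreducible factor of degree at
most `m` -/
noncomputable def Sd (K : Type) [Field K] [Fintype K] (a b : K[X]) {k : ℕ} (t : Fin k → ℕ) (n m : ℕ) :
    Finset K[X] :=
  (Irn K n).filter (fun p => ∀ i, ∀ P : K[X], P.Monic → Irreducible P → P ∣ (T a b)^[t i] p →
    m < P.natDegree)

theorem sig_iff {a b : K[X]} (ha : a ≠ 0) (hab : IsCoprime a b) {k : ℕ} (t : Fin k → ℕ) (ht : ∀ i, 1 ≤ t i)
    (m : ℕ) (p : K[X]) : Sig (mo a) (sl a t) (co a b t) m p ↔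
      ∀ i, ∀ P : K[X], P.Monic → Irreducible P → P ∣ (T a b)^[t i] p → m < P.natDegree := by
  constructor
  · intro h i P hP hPi hd
    refine h i P hP hPi ((dvd_form ha b p P t _).2 hd) ?_
    intro h2
    rw [mo_dvd ha] at h2
    exact not_dvd_iter hab hPi h2 p (t i) (ht i) hd
  · intro h i P hP hPi hd _
    exact h i P hP hPi ((dvd_form ha b p P t i).1 hd)

/-- **The number of the sifted primes.** -/
theorem count (hcn : S_cntp) [CharP K 2] (a : K[X]) (ha : a ≠ 0) {k : ℕ} (t : Fin k → ℕ) (ht : ∀ i, 1 ≤ t i)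
    (ε : ℝ) (hε : 0 < ε) :
    ∃ κ : ℝ, 0 < κ ∧ ∃ n₀ : ℕ, ∀ n : ℕ, n₀ ≤ n → ∀ (m : ℕ) (b : K[X]), 1 ≤ m → (m : ℝ) ≤ κ * n →
      IsCoprime a b →
      |((Sd K a b t n m).card : ℝ) - sp K a b t m * ((Fintype.card K : ℝ) ^ n / n)| ≤
        ε * (sp K a b t m * ((Fintype.card K : ℝ) ^ n / n)) := by
  have hQ := mo_monic ha
  obtain ⟨φ, hφ⟩ : ∃ φ : ℝ, φ = (phiQ (mo a) : ℝ) := ⟨_, rfl⟩
  have hφ0 : 0 < φ := by
    rw [hφ, ← PhiG.card_Rd]
    have : (PhiG.Rd (mo a)).Nonempty := by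
      by_cases h1 : mo a = 1
      · refine ⟨0, ?_⟩
        rw [PhiG.mem_Rd, h1]
        exact ⟨by simp, isCoprime_one_right⟩
      · refine ⟨1, ?_⟩
        rw [PhiG.mem_Rd]
        refine ⟨?_, isCoprime_one_left⟩
        rw [degree_one]
        have h2 : 0 < (mo a).natDegree := by
          rcases Nat.eq_zero_or_pos (mo a).natDegree with h | h
          · exact absurd (hQ.natDegree_eq_zero.1 h) h1
          · exact h
        exact natDegree_pos_iff_degree_pos.1 h2
    exact_mod_cast this.card_pos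
  obtain ⟨κ, hκ, n₁, h⟩ := hcn K k (mo a) (sl a t) (ε / φ) hQ (slo ha t) (by positivity)
  refine ⟨κ, hκ, max n₁ ((mo a).natDegree + 1), ?_⟩
  intro n hn m b hm hmκ hab
  have hn1 : n₁ ≤ n := le_trans (le_max_left _ _) hn
  have hn2 : (mo a).natDegree < n := le_trans (le_max_right _ _) hn
  have h1 : ∀ r ∈ PhiG.Rd (mo a), |((((Sd K a b t n m).filter (fun p => mo a ∣ p - r)).card : ℝ)) -
      sp K a b t m * ((Fintype.card K : ℝ) ^ n / n) / φ| ≤
      ε / φ * (sp K a b t m * ((Fintype.card K : ℝ) ^ n / n)) := by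
    intro r hr
    rw [PhiG.mem_Rd] at hr
    have h2 := h n hn1 m r (co a b t) hm hmκ hr.2
    rw [vg_eq ha hab t ht, ← hφ] at h2
    have e : (Sd K a b t n m).filter (fun p => mo a ∣ p - r) =
        (Irn K n).filter (fun p => mo a ∣ p - r ∧ Sig (mo a) (sl a t) (co a b t) m p) := by
      unfold Sd
      rw [filter_filter]
      apply filter_congr
      intro p _
      rw [sig_iff ha hab t ht]
      tauto
    rw [e]
    have e2 : sp K a b t m * (Fintype.card K : ℝ) ^ n / (n * φ) =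
        sp K a b t m * ((Fintype.card K : ℝ) ^ n / n) / φ := by
      rw [mul_div_assoc, mul_div_assoc, div_div]
    have e3 : sp K a b t m * (Fintype.card K : ℝ) ^ n / n =
        sp K a b t m * ((Fintype.card K : ℝ) ^ n / n) := by
      rw [mul_div_assoc]
    rw [e2, e3] at h2
    exact h2
  have hdec : ((Sd K a b t n m).card : ℝ) =
      ∑ r ∈ PhiG.Rd (mo a), (((Sd K a b t n m).filter (fun p => mo a ∣ p - r)).card : ℝ) := by
    have h3 : (Sd K a b t n m).card =
        ∑ r ∈ PhiG.Rd (mo a), ((Sd K a b t n m).filter (fun p => mo a ∣ p - r)).card := by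
      have h4 : Sd K a b t n m = (PhiG.Rd (mo a)).biUnion
          (fun r => (Sd K a b t n m).filter (fun p => mo a ∣ p - r)) := by
        ext p
        rw [mem_biUnion]
        constructor
        · intro hp
          have hp' : p ∈ Irn K n := (mem_filter.1 hp).1
          have hc := PhiG.cop hQ hn2 hp'
          have he := modByMonic_add_div p (mo a)
          refine ⟨p %ₘ mo a, ?_, ?_⟩
          · rw [PhiG.mem_Rd]
            refine ⟨degree_modByMonic_lt p hQ, ?_⟩
            have h2 : p %ₘ mo a = p + mo a * (-(p /ₘ mo a)) := by linear_combination he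
            rw [h2]
            exact hc.add_mul_left_left _
          · rw [mem_filter]
            exact ⟨hp, ⟨p /ₘ mo a, by linear_combination -he⟩⟩
        · rintro ⟨r, _, hr⟩
          exact (mem_filter.1 hr).1
      conv_lhs => rw [h4]
      rw [card_biUnion]
      intro r hr r' hr' hne
      rw [Function.onFun, disjoint_left]
      intro p hp hp'
      apply hne
      rw [mem_filter] at hp hp'
      rw [mem_coe, PhiG.mem_Rd] at hr hr'
      have h3 : mo a ∣ r - r' := by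
        have := dvd_sub hp'.2 hp.2
        have e : p - r' - (p - r) = r - r' := by ring
        rwa [e] at this
      have h4 : (r - r').degree < (mo a).degree := lt_of_le_of_lt (degree_sub_le _ _) (max_lt hr.1 hr'.1)
      exact sub_eq_zero.1 (eq_zero_of_dvd_of_degree_lt h3 h4)
    exact_mod_cast h3
  obtain ⟨Y, hY⟩ : ∃ Y : ℝ, Y = sp K a b t m * ((Fintype.card K : ℝ) ^ n / n) := ⟨_, rfl⟩
  rw [← hY] at h1 ⊢
  have hcard : ((PhiG.Rd (mo a)).card : ℝ) = φ := by rw [hφ, PhiG.card_Rd]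
  have e1 : Y = ∑ r ∈ PhiG.Rd (mo a), Y / φ := by
    rw [sum_const, nsmul_eq_mul, hcard]
    field_simp
  have e2 : ε * Y = ∑ r ∈ PhiG.Rd (mo a), ε / φ * Y := by
    rw [sum_const, nsmul_eq_mul, hcard]
    field_simp
  rw [hdec, e2]
  calc |∑ r ∈ PhiG.Rd (mo a), (((Sd K a b t n m).filter (fun p => mo a ∣ p - r)).card : ℝ) - Y|
      = |∑ r ∈ PhiG.Rd (mo a), ((((Sd K a b t n m).filter (fun p => mo a ∣ p - r)).card : ℝ) - Y / φ)| := by
        rw [sum_sub_distrib, ← e1]
    _ ≤ _ := le_trans (abs_sum_le_sum_abs _ _) (sum_le_sum h1)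

/-- lower bound for the singular product -/
theorem sp_low (hv : S_vpg) [CharP K 2] (k : ℕ) : ∃ c : ℝ, 0 < c ∧ ∀ (a b : K[X]) (t : Fin k → ℕ) (m : ℕ),
    a ≠ 0 → IsCoprime a b → (∀ i, 1 ≤ t i) → 1 ≤ m →
    (∀ P : K[X], Irreducible P → ∃ x : K[X], ¬ P ∣ x ∧ ∀ i, ¬ P ∣ (T a b)^[t i] x) →
    c / (m : ℝ) ^ k ≤ sp K a b t m := by
  obtain ⟨c, hc, h⟩ := hv K k
  refine ⟨c, hc, ?_⟩
  intro a b t m ha hab ht hm hadm
  rw [← vg_eq ha hab t ht]
  refine (h m (mo a) (sl a t) (co a b t) (mo_monic ha) (slo ha t) hm).2.1 ?_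
  intro P hP _
  rw [mem_PU] at hP
  obtain ⟨x, hx, hx2⟩ := hadm P hP.2.1
  exact ⟨x, hx, fun i hi => hx2 i ((dvd_form ha b x P t i).1 hi)⟩

end fin

end Pool.Agent.H77.CC
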