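import Pool.Agent.H77.CC.Count

/-!
# Chains `f, T(f), T(T(f)), …`, `T(x) = a x + b`, over `F_q[X]`, `q` even, with `T^s(f)` irreducible: the
number of the `f` for which no other term has a prime factor of small degree (helper77, with helper985)
-/

set_option autoImplicit false
set_option linter.all false

namespace Pool.Agent.H77.CC

open Polynomial Finset
open scoped Classical
open Pool.Agent.H694.Typ (Mn Irn PU mem_Mn mem_Irn mem_PU)
open Pool.Agent.H985.CG

section phi

variable {K : Type} [Field K] [Fintype K]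

/-- the number of the polynomials of degree less than `d` -/
theorem ncard_lt {R : K[X]} (hR : R.Monic) :
    {r : K[X] | r.degree < R.degree}.ncard = Fintype.card K ^ R.natDegree := by
  have h1 : {r : K[X] | r.degree < R.degree} =
      Set.range (fun c : Fin R.natDegree → K => Pool.Agent.H694.Typ.pol c) := by
    ext r
    rw [Set.mem_setOf_eq, Set.mem_range, degree_eq_natDegree hR.ne_zero]
    constructor
    · exact fun h => Pool.Agent.H694.Typ.exists_pol h
    · rintro ⟨c, rfl⟩
      exact Pool.Agent.H694.Typ.pol_degree c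
  rw [h1, Set.ncard_eq_toFinset_card', Set.toFinset_range,
    Finset.card_image_of_injective _ Pool.Agent.H694.Typ.pol_inj, Finset.card_univ, Fintype.card_fun,
    Fintype.card_fin]

theorem cop_iff {A R x : K[X]} (hAR : ∀ P : K[X], Irreducible P → P ∣ A → P ∣ R) (hA : A ≠ 0) (hR : R ≠ 0) :
    IsCoprime x (A * R) ↔ IsCoprime x R := by
  constructor
  · exact fun h => h.of_isCoprime_of_dvd_right (dvd_mul_left _ _)
  · intro h
    refine IsCoprime.mul_right ?_ h
    apply isCoprime_of_irreducible_dvd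
    · exact fun h0 => hA h0.2
    · intro P hP hPx hPA
      exact hP.not_isUnit (h.isUnit_of_dvd' hPx (hAR P hP hPA))

/-- Euler's function of a product -/
theorem phi_mul {A R : K[X]} (hA : A.Monic) (hR : R.Monic) (hAR : ∀ P : K[X], Irreducible P → P ∣ A → P ∣ R) :
    phiQ (A * R) = Fintype.card K ^ A.natDegree * phiQ R := by
  unfold phiQ
  rw [← ncard_lt hA, ← Set.ncard_prod]
  have hinj : Set.InjOn (fun q : K[X] × K[X] => R * q.1 + q.2)
      ({r : K[X] | r.degree < A.degree} ×ˢ {r : K[X] | r.degree < R.degree ∧ IsCoprime r R}) := by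
    rintro ⟨u, r⟩ ⟨-, hr⟩ ⟨u', r'⟩ ⟨-, hr'⟩ h
    have hr1 : r.degree < R.degree := hr.1
    have hr2 : r'.degree < R.degree := hr'.1
    have h' : R * u + r = R * u' + r' := h
    have h1 : R ∣ r - r' := ⟨u' - u, by linear_combination h'⟩
    have h2 : r - r' = 0 := eq_zero_of_dvd_of_degree_lt h1
      (lt_of_le_of_lt (degree_sub_le _ _) (max_lt hr1 hr2))
    have h3 : r = r' := sub_eq_zero.1 h2
    subst h3
    have h4 : R * u = R * u' := by linear_combination h'
    rw [mul_left_cancel₀ hR.ne_zero h4]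
  rw [← Set.ncard_image_of_injOn hinj]
  congr 1
  ext x
  rw [Set.mem_setOf_eq, Set.mem_image, cop_iff hAR hA.ne_zero hR.ne_zero]
  constructor
  · rintro ⟨h1, h2⟩
    refine ⟨(x /ₘ R, x %ₘ R), ⟨?_, ?_, ?_⟩, ?_⟩
    · show (x /ₘ R).degree < A.degree
      by_cases hx : x.degree < R.degree
      · rw [(divByMonic_eq_zero_iff hR).2 hx, degree_zero]
        exact bot_lt_iff_ne_bot.2 (degree_ne_bot.2 hA.ne_zero)
      · have h3 := degree_add_divByMonic hR (not_lt.1 hx)
        rw [← h3, degree_mul, add_comm A.degree] at h1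
        by_contra h4
        exact absurd h1 (not_lt.2 (add_le_add_right (not_lt.1 h4) _))
    · exact degree_modByMonic_lt x hR
    · show IsCoprime (x %ₘ R) R
      have h3 : x %ₘ R = x + R * (-(x /ₘ R)) := by linear_combination modByMonic_add_div x R
      rw [h3]
      exact h2.add_mul_left_left _
    · show R * (x /ₘ R) + x %ₘ R = x
      linear_combination modByMonic_add_div x R
  · rintro ⟨⟨u, r⟩, ⟨hu, hr, hrc⟩, rfl⟩
    have hu' : u.degree < A.degree := hu
    have hr' : r.degree < R.degree := hr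
    have hrc' : IsCoprime r R := hrc
    constructor
    · show (R * u + r).degree < (A * R).degree
      have hA1 : R.degree ≤ (A * R).degree := by
        rw [mul_comm]
        exact degree_le_mul_left _ hA.ne_zero
      refine lt_of_le_of_lt (degree_add_le _ _) (max_lt ?_ (lt_of_lt_of_le hr' hA1))
      by_cases hu0 : u = 0
      · rw [hu0, mul_zero, degree_zero]
        exact bot_lt_iff_ne_bot.2 (degree_ne_bot.2 (mul_ne_zero hA.ne_zero hR.ne_zero))
      · rw [degree_mul, degree_mul, degree_eq_natDegree hR.ne_zero, degree_eq_natDegree hA.ne_zero,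
          degree_eq_natDegree hu0] at *
        norm_cast at *
        omega
    · show IsCoprime (R * u + r) R
      rw [add_comm]
      exact hrc'.add_mul_left_left _

end phi

section cnt

variable {K : Type} [Field K]

/-- the constant of `T^t` -/
noncomputable def Bt (a b : K[X]) (t : ℕ) : K[X] := b * ∑ j ∈ range t, a ^ j

/-- the polynomial `T^s(f)`, normalised -/
noncomputable def pf (a b : K[X]) (s : ℕ) (f : K[X]) : K[X] := C (a.leadingCoeff)⁻¹ ^ s * (T a b)^[s] f

/-- its constant -/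
noncomputable def be (a b : K[X]) (s : ℕ) : K[X] := C (a.leadingCoeff)⁻¹ ^ s * Bt a b s

theorem pf_eq (a b : K[X]) (s : ℕ) (f : K[X]) : pf a b s f = mo a ^ s * f + be a b s := by
  unfold pf be Bt mo
  rw [iter, mul_pow]
  ring

/-- the constants of the forms in `p` -/
noncomputable def cs (a b : K[X]) (s : ℕ) {k : ℕ} (t : Fin k → ℕ) (i : Fin k) : K[X] :=
  C (a.leadingCoeff)⁻¹ ^ t i * mo a ^ s * Bt a b (t i) - mo a ^ t i * be a b s

theorem key (a b : K[X]) (s : ℕ) {k : ℕ} (t : Fin k → ℕ) (i : Fin k) (f : K[X]) :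
    mo a ^ t i * pf a b s f + cs a b s t i =
      C (a.leadingCoeff)⁻¹ ^ t i * (mo a ^ s * (T a b)^[t i] f) := by
  rw [pf_eq, cs, iter]
  unfold Bt mo
  rw [mul_pow]
  ring

/-- for `P` prime to `a` -/
theorem dvd_key {a : K[X]} (ha : a ≠ 0) (b : K[X]) (s : ℕ) {k : ℕ} (t : Fin k → ℕ) (i : Fin k) (f P : K[X])
    (hP : Irreducible P) (hPa : ¬ P ∣ a) :
    P ∣ mo a ^ t i * pf a b s f + cs a b s t i ↔ P ∣ (T a b)^[t i] f := by
  rw [key, (unit_c ha _).dvd_mul_left]
  constructor
  · intro h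
    rcases hP.prime.dvd_or_dvd h with h | h
    · exact absurd ((mo_dvd ha).1 (hP.prime.dvd_of_dvd_pow h)) hPa
    · exact h
  · exact fun h => h.mul_left _

theorem slo' {a : K[X]} (ha : a ≠ 0) (s : ℕ) {k : ℕ} (t : Fin k → ℕ) :
    Slo (mo a ^ s * mo a) (fun i => mo a ^ t i) := by
  intro i
  refine ⟨(mo_monic ha).pow _, fun P hP hd => ?_⟩
  exact (hP.prime.dvd_of_dvd_pow hd).mul_left _

/-- the primes dividing the modulus divide `a` -/
theorem dvd_mod {a : K[X]} (ha : a ≠ 0) (s : ℕ) {P : K[X]} (hP : Irreducible P) :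
    P ∣ mo a ^ s * mo a ↔ P ∣ a := by
  constructor
  · intro h
    rw [← pow_succ] at h
    exact (mo_dvd ha).1 (hP.prime.dvd_of_dvd_pow h)
  · exact fun h => ((mo_dvd ha).2 h).mul_left _

variable [Fintype K]

/-- the number of the residues `r` modulo `P` for which `P` divides `T^s(r)` or some `T^(t i)(r)` -/
noncomputable def nus (a b : K[X]) (s : ℕ) {k : ℕ} (t : Fin k → ℕ) (P : K[X]) : ℕ :=
  {r : K[X] | r.degree < P.degree ∧ (P ∣ (T a b)^[s] r ∨ ∃ i, P ∣ (T a b)^[t i] r)}.ncard

/-- the singular product -/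
noncomputable def sps (K : Type) [Field K] [Fintype K] (a b : K[X]) (s : ℕ) {k : ℕ} (t : Fin k → ℕ)
    (m : ℕ) : ℝ :=
  ∏ P ∈ PU K m, ((1 - (nus a b s t P : ℝ) / (Fintype.card K : ℝ) ^ P.natDegree) /
    (1 - 1 / (Fintype.card K : ℝ) ^ P.natDegree))

theorem nus_dvd {a b : K[X]} (hab : IsCoprime a b) {s : ℕ} (hs : 1 ≤ s) {k : ℕ} (t : Fin k → ℕ)
    (h0 : ∃ i, t i = 0) {P : K[X]} (hP : Irreducible P) (hPa : P ∣ a) : nus a b s t P = 1 := by
  unfold nus
  have e : {r : K[X] | r.degree < P.degree ∧ (P ∣ (T a b)^[s] r ∨ ∃ i, P ∣ (T a b)^[t i] r)} = {0} := by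
    ext r
    rw [Set.mem_setOf_eq, Set.mem_singleton_iff]
    constructor
    · rintro ⟨h1, h2 | ⟨i, hi⟩⟩
      · exact absurd h2 (not_dvd_iter hab hP hPa r s hs)
      · rcases Nat.eq_zero_or_pos (t i) with h | h
        · rw [h] at hi
          exact eq_zero_of_dvd_of_degree_lt hi h1
        · exact absurd hi (not_dvd_iter hab hP hPa r (t i) h)
    · rintro rfl
      obtain ⟨i, hi⟩ := h0
      refine ⟨?_, Or.inr ⟨i, ?_⟩⟩
      · rw [degree_zero]
        exact bot_lt_iff_ne_bot.2 (degree_ne_bot.2 hP.ne_zero)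
      · rw [hi]
        exact dvd_zero _
  rw [e, Set.ncard_singleton]

theorem nus_ndvd {a : K[X]} (ha : a ≠ 0) (b : K[X]) (s : ℕ) {k : ℕ} (t : Fin k → ℕ)
    {P : K[X]} (hP : Irreducible P) (hPm : P.Monic) (hPa : ¬ P ∣ a) :
    (nus a b s t P : ℝ) = 1 + nug (fun i => mo a ^ t i) (cs a b s t) P := by
  have hu : ¬ P ∣ mo a ^ s := fun h => hPa ((mo_dvd ha).1 (hP.prime.dvd_of_dvd_pow h))
  obtain ⟨u, v, huv⟩ : IsCoprime (mo a ^ s) P := ((hP.coprime_iff_not_dvd).2 hu).symm
  have hfin : ∀ S : Set K[X], (∀ r ∈ S, r.degree < P.degree) → S.Finite := fun S hS =>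
    (PhiG.fin_deg P).subset hS
  -- the residue with `P ∣ T^s(r)`
  have hdp : ∀ r : K[X], P ∣ (T a b)^[s] r ↔ P ∣ pf a b s r := by
    intro r
    unfold pf
    rw [(unit_c ha _).dvd_mul_left]
  have hmod : ∀ x : K[X], P ∣ x %ₘ P - x := fun x => ⟨-(x /ₘ P), by linear_combination modByMonic_add_div x P⟩
  have hpd : ∀ r r' : K[X], pf a b s r - pf a b s r' = mo a ^ s * (r - r') := by
    intro r r'
    rw [pf_eq, pf_eq]; ring
  -- splitting
  have hsplit : {r : K[X] | r.degree < P.degree ∧ (P ∣ (T a b)^[s] r ∨ ∃ i, P ∣ (T a b)^[t i] r)} =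
      {r : K[X] | r.degree < P.degree ∧ P ∣ (T a b)^[s] r} ∪
        {r : K[X] | r.degree < P.degree ∧ ¬ P ∣ (T a b)^[s] r ∧ ∃ i, P ∣ (T a b)^[t i] r} := by
    ext r
    simp only [Set.mem_setOf_eq, Set.mem_union]
    tauto
  have hdisj : Disjoint {r : K[X] | r.degree < P.degree ∧ P ∣ (T a b)^[s] r}
      {r : K[X] | r.degree < P.degree ∧ ¬ P ∣ (T a b)^[s] r ∧ ∃ i, P ∣ (T a b)^[t i] r} := by
    rw [Set.disjoint_left]
    rintro r ⟨_, h1⟩ ⟨_, h2, _⟩
    exact h2 h1
  have h1 : {r : K[X] | r.degree < P.degree ∧ P ∣ (T a b)^[s] r} = {(-(u * be a b s)) %ₘ P} := by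
    ext r
    rw [Set.mem_setOf_eq, Set.mem_singleton_iff, hdp]
    have e0 : P ∣ pf a b s ((-(u * be a b s)) %ₘ P) := by
      rw [pf_eq]
      have e : mo a ^ s * ((-(u * be a b s)) %ₘ P) + be a b s =
          mo a ^ s * ((-(u * be a b s)) %ₘ P - (-(u * be a b s))) + P * (v * be a b s) := by
        linear_combination (-(be a b s)) * huv
      rw [e]
      exact dvd_add ((hmod _).mul_left _) (dvd_mul_right _ _)
    constructor
    · rintro ⟨h1, h2⟩
      have h3 : P ∣ mo a ^ s * (r - (-(u * be a b s)) %ₘ P) := by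
        rw [← hpd]
        exact dvd_sub h2 e0
      rcases hP.prime.dvd_or_dvd h3 with h4 | h4
      · exact absurd h4 hu
      · exact sub_eq_zero.1 (eq_zero_of_dvd_of_degree_lt h4
          (lt_of_le_of_lt (degree_sub_le _ _) (max_lt h1 (degree_modByMonic_lt _ hPm))))
    · rintro rfl
      exact ⟨degree_modByMonic_lt _ hPm, e0⟩
  have h2 : {ρ : K[X] | ρ.degree < P.degree ∧ ρ ≠ 0 ∧ ∃ i, P ∣ mo a ^ t i * ρ + cs a b s t i} =
      (fun r => pf a b s r %ₘ P) ''
        {r : K[X] | r.degree < P.degree ∧ ¬ P ∣ (T a b)^[s] r ∧ ∃ i, P ∣ (T a b)^[t i] r} := by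
    have hc : ∀ (r : K[X]) (i : Fin k), P ∣ mo a ^ t i * (pf a b s r %ₘ P) + cs a b s t i ↔
        P ∣ (T a b)^[t i] r := by
      intro r i
      rw [← dvd_key ha b s t i r P hP hPa]
      have e : mo a ^ t i * (pf a b s r %ₘ P) + cs a b s t i =
          mo a ^ t i * (pf a b s r %ₘ P - pf a b s r) + (mo a ^ t i * pf a b s r + cs a b s t i) := by ring
      rw [e]
      exact (dvd_add_right ((hmod _).mul_left _))
    ext ρ
    rw [Set.mem_setOf_eq, Set.mem_image]
    constructor
    · rintro ⟨h3, h4, i, hi⟩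
      refine ⟨(u * (ρ - be a b s)) %ₘ P, ?_, ?_⟩
      · have e0 : P ∣ pf a b s ((u * (ρ - be a b s)) %ₘ P) - ρ := by
          rw [pf_eq]
          have e : mo a ^ s * ((u * (ρ - be a b s)) %ₘ P) + be a b s - ρ =
              mo a ^ s * ((u * (ρ - be a b s)) %ₘ P - u * (ρ - be a b s)) + P * (-(v * (ρ - be a b s))) := by
            linear_combination (ρ - be a b s) * huv
          rw [e]
          exact dvd_add ((hmod _).mul_left _) (dvd_mul_right _ _)
        refine ⟨degree_modByMonic_lt _ hPm, ?_, i, ?_⟩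
        · rw [hdp]
          intro h5
          apply h4
          have h6 : P ∣ ρ := by
            have := dvd_sub h5 e0
            rwa [sub_sub_cancel] at this
          exact eq_zero_of_dvd_of_degree_lt h6 h3
        · rw [← dvd_key ha b s t i _ P hP hPa]
          have e : mo a ^ t i * pf a b s ((u * (ρ - be a b s)) %ₘ P) + cs a b s t i =
              mo a ^ t i * (pf a b s ((u * (ρ - be a b s)) %ₘ P) - ρ) + (mo a ^ t i * ρ + cs a b s t i) := by ring
          rw [e]
          exact dvd_add (e0.mul_left _) hi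
      · show pf a b s ((u * (ρ - be a b s)) %ₘ P) %ₘ P = ρ
        have e0 : P ∣ pf a b s ((u * (ρ - be a b s)) %ₘ P) - ρ := by
          rw [pf_eq]
          have e : mo a ^ s * ((u * (ρ - be a b s)) %ₘ P) + be a b s - ρ =
              mo a ^ s * ((u * (ρ - be a b s)) %ₘ P - u * (ρ - be a b s)) + P * (-(v * (ρ - be a b s))) := by
            linear_combination (ρ - be a b s) * huv
          rw [e]
          exact dvd_add ((hmod _).mul_left _) (dvd_mul_right _ _)
        have h5 : P ∣ pf a b s ((u * (ρ - be a b s)) %ₘ P) %ₘ P - ρ := by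
          have := dvd_add (hmod (pf a b s ((u * (ρ - be a b s)) %ₘ P))) e0
          rwa [sub_add_sub_cancel] at this
        exact sub_eq_zero.1 (eq_zero_of_dvd_of_degree_lt h5
          (lt_of_le_of_lt (degree_sub_le _ _) (max_lt (degree_modByMonic_lt _ hPm) h3)))
    · rintro ⟨r, ⟨h3, h4, i, hi⟩, rfl⟩
      refine ⟨degree_modByMonic_lt _ hPm, ?_, i, (hc r i).2 hi⟩
      intro h5
      apply h4
      rw [hdp]
      have h6 := hmod (pf a b s r)
      rw [h5, zero_sub] at h6
      exact (dvd_neg).1 h6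
  have hinj : Set.InjOn (fun r => pf a b s r %ₘ P)
      {r : K[X] | r.degree < P.degree ∧ ¬ P ∣ (T a b)^[s] r ∧ ∃ i, P ∣ (T a b)^[t i] r} := by
    rintro r ⟨hr, -⟩ r' ⟨hr', -⟩ h
    have h' : pf a b s r %ₘ P = pf a b s r' %ₘ P := h
    have h3 : P ∣ pf a b s r - pf a b s r' := by
      have h4 := hmod (pf a b s r)
      have h5 := hmod (pf a b s r')
      rw [h'] at h4
      have := dvd_sub h5 h4
      have e : pf a b s r' %ₘ P - pf a b s r' - (pf a b s r' %ₘ P - pf a b s r) =
        pf a b s r - pf a b s r' := by ring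
      rwa [e] at this
    rw [hpd] at h3
    rcases hP.prime.dvd_or_dvd h3 with h4 | h4
    · exact absurd h4 hu
    · exact sub_eq_zero.1 (eq_zero_of_dvd_of_degree_lt h4
        (lt_of_le_of_lt (degree_sub_le _ _) (max_lt hr hr')))
  unfold nus nug
  rw [hsplit, Set.ncard_union_eq hdisj (hfin _ fun r h => h.1) (hfin _ fun r h => h.1), h1,
    Set.ncard_singleton, h2, Set.ncard_image_of_injOn hinj]
  push_cast
  ring

theorem vg_eqs {a b : K[X]} (ha : a ≠ 0) (hab : IsCoprime a b) {s : ℕ} (hs : 1 ≤ s) {k : ℕ} (t : Fin k → ℕ)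
    (h0 : ∃ i, t i = 0) (m : ℕ) :
    vg (mo a ^ s * mo a) m (fun i => mo a ^ t i) (cs a b s t) = sps K a b s t m := by
  unfold vg sps
  rw [prod_filter]
  apply prod_congr rfl
  intro P hP
  rw [mem_PU] at hP
  have hq : (2 : ℝ) ≤ (Fintype.card K : ℝ) := Pool.Agent.H694.Typ.q_ge (k := K)
  have hd : 1 ≤ P.natDegree := hP.2.1.natDegree_pos
  have hx : (2 : ℝ) ≤ (Fintype.card K : ℝ) ^ P.natDegree := by
    calc (2 : ℝ) ≤ (Fintype.card K : ℝ) ^ 1 := by rw [pow_one]; exact hq
      _ ≤ _ := pow_le_pow_right₀ (by linarith) hd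
  obtain ⟨x, hxx⟩ : ∃ x : ℝ, x = (Fintype.card K : ℝ) ^ P.natDegree := ⟨_, rfl⟩
  rw [← hxx] at hx ⊢
  have hx0 : x ≠ 0 := by linarith
  have hx1 : x - 1 ≠ 0 := by
    intro h
    linarith
  by_cases hPa : P ∣ a
  · rw [if_neg (not_not.2 ((dvd_mod ha s hP.2.1).2 hPa)), nus_dvd hab hs t h0 hP.2.1 hPa]
    push_cast
    rw [div_self]
    intro h
    have h2 : x * (1 - 1 / x) = 0 := by rw [h, mul_zero]
    rw [mul_sub, mul_one, mul_one_div_cancel hx0] at h2
    exact hx1 h2
  · rw [if_pos (fun h => hPa ((dvd_mod ha s hP.2.1).1 h)), nus_ndvd ha b s t hP.2.1 hP.1 hPa]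
    obtain ⟨w, hw⟩ : ∃ w : ℝ, w = nug (fun i => mo a ^ t i) (cs a b s t) P := ⟨_, rfl⟩
    rw [← hw]
    have hy : 1 - 1 / x = (x - 1) / x := by field_simp
    rw [hy]
    field_simp
    ring

/-- the monic `f` of degree `n` such that `T^s(f)` is irreducible and no `T^(t i)(f)` has an irreducible
factor of degree at most `m` -/
noncomputable def Ss (K : Type) [Field K] [Fintype K] (a b : K[X]) (s : ℕ) {k : ℕ} (t : Fin k → ℕ) (n m : ℕ) :
    Finset K[X] :=
  (Mn K n).filter (fun f => Irreducible ((T a b)^[s] f) ∧ ∀ i, ∀ P : K[X], P.Monic → Irreducible P →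
    P ∣ (T a b)^[t i] f → m < P.natDegree)

theorem mo_deg {a : K[X]} (ha : a ≠ 0) : (mo a).natDegree = a.natDegree := by
  unfold mo
  exact natDegree_mul_leadingCoeff_self_inv a

theorem be_deg {a : K[X]} (ha : a ≠ 0) (b : K[X]) (s n : ℕ) (hB : (Bt a b s).natDegree < n + s * a.natDegree) :
    (be a b s).natDegree < n + s * a.natDegree := by
  unfold be
  refine lt_of_le_of_lt natDegree_mul_le ?_
  have h1 : (C (a.leadingCoeff)⁻¹ ^ s : K[X]).natDegree = 0 := by
    rw [← C_pow, natDegree_C]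
  rw [h1, zero_add]
  exact hB

/-- the irreducible polynomials in a class and the polynomials in a class -/
theorem imgs {a b : K[X]} (ha : a ≠ 0) (hab : IsCoprime a b) {s : ℕ} {k : ℕ} (t : Fin k → ℕ)
    (n m : ℕ) (r : K[X]) (hr : IsCoprime r (mo a)) (hB : (Bt a b s).natDegree < n + s * a.natDegree) :
    (Irn K (n + s * a.natDegree)).filter (fun p => mo a ^ s * mo a ∣ p - (mo a ^ s * r + be a b s) ∧
        Sig (mo a ^ s * mo a) (fun i => mo a ^ t i) (cs a b s t) m p) =
      ((Ss K a b s t n m).filter (fun f => mo a ∣ f - r)).image (fun f => pf a b s f) := by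
  have hA : (mo a ^ s).Monic := (mo_monic ha).pow s
  have hAd : (mo a ^ s).natDegree = s * a.natDegree := by rw [natDegree_pow, mo_deg ha]
  have hbe := be_deg ha b s n hB
  have hirr : ∀ f : K[X], Irreducible ((T a b)^[s] f) ↔ Irreducible (pf a b s f) := by
    intro f
    unfold pf
    exact (irreducible_isUnit_mul (unit_c ha s)).symm
  ext p
  rw [mem_filter, mem_image, mem_Irn]
  constructor
  · rintro ⟨⟨h1, h2, h3⟩, h4, h5⟩
    have h6 : mo a ^ s ∣ p - be a b s := by
      have h7 : mo a ^ s ∣ p - (mo a ^ s * r + be a b s) := (dvd_mul_right _ _).trans h4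
      have h8 : p - be a b s = (p - (mo a ^ s * r + be a b s)) + mo a ^ s * r := by ring
      rw [h8]
      exact dvd_add h7 (dvd_mul_right _ _)
    obtain ⟨f, hf⟩ := h6
    have hp : p = mo a ^ s * f + be a b s := by rw [← hf]; ring
    have hlt : (be a b s).degree < p.degree := by
      refine lt_of_le_of_lt degree_le_natDegree ?_
      rw [degree_eq_natDegree h1.ne_zero, h2]
      exact_mod_cast hbe
    have h9 : (mo a ^ s * f).Monic := by
      rw [← hf]
      exact h1.sub_of_left hlt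
    have hfm : f.Monic := hA.of_mul_monic_left h9
    have h10 : (mo a ^ s * f).natDegree = n + s * a.natDegree := by
      rw [← hf, natDegree_sub_eq_left_of_natDegree_lt (by omega), h2]
    have hfd : f.natDegree = n := by
      rw [hA.natDegree_mul hfm, hAd] at h10
      omega
    have hfr : mo a ∣ f - r := by
      have h11 : p - (mo a ^ s * r + be a b s) = mo a ^ s * (f - r) := by
        rw [hp]; ring
      rw [h11] at h4
      exact (mul_dvd_mul_iff_left hA.ne_zero).1 h4
    have hpf : pf a b s f = p := by rw [pf_eq, hp]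
    refine ⟨f, ?_, hpf⟩
    unfold Ss
    rw [mem_filter, mem_filter, mem_Mn]
    refine ⟨⟨⟨hfm, hfd⟩, (hirr f).2 (by rw [hpf]; exact h3), fun i P hP hPi hPd => ?_⟩, hfr⟩
    have hPa : ¬ P ∣ a := by
      intro h
      rcases Nat.eq_zero_or_pos (t i) with h12 | h12
      · rw [h12] at hPd
        have h13 : P ∣ f := hPd
        have h14 := (mo_dvd ha).2 h
        have h15 : P ∣ r := by
          have := dvd_sub h13 (h14.trans hfr)
          rwa [sub_sub_cancel] at this
        exact hPi.not_isUnit (hr.isUnit_of_dvd' h15 h14)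
      · exact not_dvd_iter hab hPi h f (t i) h12 hPd
    refine h5 i P hP hPi ?_ (fun h => hPa ((dvd_mod ha s hPi).1 h))
    show P ∣ mo a ^ t i * p + cs a b s t i
    rw [← hpf]
    exact (dvd_key ha b s t i f P hPi hPa).2 hPd
  · rintro ⟨f, hf, rfl⟩
    unfold Ss at hf
    rw [mem_filter, mem_filter, mem_Mn] at hf
    obtain ⟨⟨⟨h1, h2⟩, h3, h4⟩, h5⟩ := hf
    have hm : (mo a ^ s * f).Monic := hA.mul h1
    have hmd : (mo a ^ s * f).natDegree = n + s * a.natDegree := by
      rw [hA.natDegree_mul h1, hAd, h2, add_comm]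
    have hlt : (be a b s).degree < (mo a ^ s * f).degree := by
      refine lt_of_le_of_lt degree_le_natDegree ?_
      rw [degree_eq_natDegree hm.ne_zero, hmd]
      exact_mod_cast hbe
    refine ⟨⟨?_, ?_, (hirr f).1 h3⟩, ?_, fun i P hP hPi hPd hPQ => ?_⟩
    · rw [pf_eq]
      exact hm.add_of_left hlt
    · rw [pf_eq, natDegree_add_eq_left_of_degree_lt hlt, hmd]
    · have h11 : pf a b s f - (mo a ^ s * r + be a b s) = mo a ^ s * (f - r) := by
        rw [pf_eq]; ring
      rw [h11]
      exact mul_dvd_mul_left _ h5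
    · have hPa : ¬ P ∣ a := fun h => hPQ ((dvd_mod ha s hPi).2 h)
      exact h4 i P hP hPi ((dvd_key ha b s t i f P hPi hPa).1 hPd)

/-- **The number of the `f` with `T^s(f)` irreducible and the other terms sifted.** -/
theorem counts (hcn : S_cntp) [CharP K 2] (a : K[X]) (ha : a ≠ 0) {s : ℕ} (hs : 1 ≤ s) {k : ℕ} (t : Fin k → ℕ)
    (h0 : ∃ i, t i = 0) (ε : ℝ) (hε : 0 < ε) :
    ∃ κ : ℝ, 0 < κ ∧ ∃ n₀ : ℕ, ∀ n : ℕ, n₀ ≤ n → ∀ (m : ℕ) (b : K[X]), 1 ≤ m → a.natDegree ≤ m →
      (m : ℝ) ≤ κ * n → IsCoprime a b → (Bt a b s).natDegree < n + s * a.natDegree →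
      |((Ss K a b s t n m).card : ℝ) -
          sps K a b s t m * ((Fintype.card K : ℝ) ^ n / ((n + s * a.natDegree : ℕ) : ℝ))| ≤
        ε * (sps K a b s t m * ((Fintype.card K : ℝ) ^ n / ((n + s * a.natDegree : ℕ) : ℝ))) := by
  have hR := mo_monic ha
  have hA : (mo a ^ s).Monic := hR.pow s
  have hAd : (mo a ^ s).natDegree = s * a.natDegree := by rw [natDegree_pow, mo_deg ha]
  have hQ : (mo a ^ s * mo a).Monic := hA.mul hR
  have hq : (2 : ℝ) ≤ (Fintype.card K : ℝ) := Pool.Agent.H694.Typ.q_ge (k := K)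
  obtain ⟨w, hw⟩ : ∃ w : ℝ, w = (Fintype.card K : ℝ) ^ (s * a.natDegree) := ⟨_, rfl⟩
  have hw0 : 0 < w := by rw [hw]; positivity
  obtain ⟨φ, hφ⟩ : ∃ φ : ℝ, φ = (phiQ (mo a) : ℝ) := ⟨_, rfl⟩
  have hφQ : (phiQ (mo a ^ s * mo a) : ℝ) = w * φ := by
    rw [phi_mul hA hR (fun P hP h => hP.prime.dvd_of_dvd_pow h), hAd, hw, hφ]
    push_cast
    ring
  have hφ0 : 0 < φ := by
    rw [hφ, ← PhiG.card_Rd]
    have : (PhiG.Rd (mo a)).Nonempty := by
      by_cases h1 : mo a = 1
      · refine ⟨0, ?_⟩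
        rw [PhiG.mem_Rd, h1]
        exact ⟨by simp, isCoprime_one_right⟩
      · refine ⟨1, ?_⟩
        rw [PhiG.mem_Rd]
        refine ⟨?_, isCoprime_one_left⟩
        rw [degree_one]
        have h2 : 0 < (mo a).natDegree := by
          rcases Nat.eq_zero_or_pos (mo a).natDegree with h | h
          · exact absurd (hR.natDegree_eq_zero.1 h) h1
          · exact h
        exact natDegree_pos_iff_degree_pos.1 h2
    exact_mod_cast this.card_pos
  obtain ⟨κ, hκ, n₁, h⟩ := hcn K k (mo a ^ s * mo a) (fun i => mo a ^ t i) (ε / (w * φ)) hQ (slo' ha s t)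
    (by positivity)
  refine ⟨κ, hκ, max n₁ 1, ?_⟩
  intro n hn m b hm hma hmκ hab hB
  have hn1 : n₁ ≤ n + s * a.natDegree := (le_trans (le_max_left _ _) hn).trans (Nat.le_add_right _ _)
  have hn2 : 1 ≤ n := le_trans (le_max_right _ _) hn
  obtain ⟨N, hN⟩ : ∃ N : ℕ, N = n + s * a.natDegree := ⟨_, rfl⟩
  have hNn : (n : ℝ) ≤ (N : ℝ) := by
    rw [hN]
    exact_mod_cast Nat.le_add_right _ _
  have hN0 : (0 : ℝ) < (N : ℝ) := by
    have : 1 ≤ N := by omega
    exact_mod_cast this
  have hqN : (Fintype.card K : ℝ) ^ N = (Fintype.card K : ℝ) ^ n * w := by rw [hN, pow_add, hw]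
  obtain ⟨Y, hY⟩ : ∃ Y : ℝ, Y = sps K a b s t m * ((Fintype.card K : ℝ) ^ n / (N : ℝ)) := ⟨_, rfl⟩
  have h1 : ∀ r ∈ PhiG.Rd (mo a), |((((Ss K a b s t n m).filter (fun f => mo a ∣ f - r)).card : ℝ)) - Y / φ| ≤
      ε / φ * Y := by
    intro r hr
    rw [PhiG.mem_Rd] at hr
    have hρ : IsCoprime (mo a ^ s * r + be a b s) (mo a ^ s * mo a) := by
      apply isCoprime_of_irreducible_dvd
      · exact fun h2 => hQ.ne_zero h2.2
      · intro P hP hPx hPQ
        have hPa := (dvd_mod ha s hP).1 hPQ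
        have h2 : P ∣ (T a b)^[s] r := by
          rw [← pf_eq] at hPx
          unfold pf at hPx
          exact ((unit_c ha s).dvd_mul_left).1 hPx
        exact not_dvd_iter hab hP hPa r s hs h2
    have h2 := h N (hN ▸ hn1) m (mo a ^ s * r + be a b s) (cs a b s t) hm
      (hmκ.trans (mul_le_mul_of_nonneg_left hNn hκ.le)) hρ
    rw [hN, imgs ha hab t n m r hr.2 hB, card_image_of_injective, vg_eqs ha hab hs t h0, hφQ, ← hN] at h2
    · have e2 : sps K a b s t m * (Fintype.card K : ℝ) ^ N / ((N : ℝ) * (w * φ)) = Y / φ := by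
        rw [hqN, hY]
        field_simp
      have e3 : ε / (w * φ) * (sps K a b s t m * (Fintype.card K : ℝ) ^ N / (N : ℝ)) = ε / φ * Y := by
        rw [hqN, hY]
        field_simp
      rw [e2, e3] at h2
      exact h2
    · intro f f' hff
      have h3 : pf a b s f = pf a b s f' := hff
      rw [pf_eq, pf_eq] at h3
      exact mul_left_cancel₀ hA.ne_zero (add_right_cancel h3)
  have hdec : ((Ss K a b s t n m).card : ℝ) =
      ∑ r ∈ PhiG.Rd (mo a), (((Ss K a b s t n m).filter (fun f => mo a ∣ f - r)).card : ℝ) := by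
    have h3 : (Ss K a b s t n m).card =
        ∑ r ∈ PhiG.Rd (mo a), ((Ss K a b s t n m).filter (fun f => mo a ∣ f - r)).card := by
      have h4 : Ss K a b s t n m = (PhiG.Rd (mo a)).biUnion
          (fun r => (Ss K a b s t n m).filter (fun f => mo a ∣ f - r)) := by
        ext f
        rw [mem_biUnion]
        constructor
        · intro hf
          have hf' := hf
          unfold Ss at hf'
          rw [mem_filter, mem_Mn] at hf'
          have hc : IsCoprime f (mo a) := by
            apply isCoprime_of_irreducible_dvd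
            · exact fun h2 => hR.ne_zero h2.2
            · intro P hP hPf hPa
              have hPa' := (mo_dvd ha).1 hPa
              obtain ⟨i, hi⟩ := h0
              have hu : IsUnit (C (P.leadingCoeff)⁻¹ : K[X]) :=
                isUnit_C.2 (IsUnit.mk0 _ (inv_ne_zero (mt leadingCoeff_eq_zero.1 hP.ne_zero)))
              have h5 := hf'.2.2 i (P * C (P.leadingCoeff)⁻¹) (monic_mul_leadingCoeff_inv hP.ne_zero)
                ((irreducible_mul_isUnit hu).2 hP) (by
                  rw [hi]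
                  exact (hu.mul_right_dvd).2 hPf)
              rw [natDegree_mul_leadingCoeff_self_inv] at h5
              have h6 := natDegree_le_of_dvd hPa' ha
              omega
          refine ⟨f %ₘ mo a, ?_, ?_⟩
          · rw [PhiG.mem_Rd]
            refine ⟨degree_modByMonic_lt f hR, ?_⟩
            have h2 : f %ₘ mo a = f + mo a * (-(f /ₘ mo a)) := by
              linear_combination modByMonic_add_div f (mo a)
            rw [h2]
            exact hc.add_mul_left_left _
          · rw [mem_filter]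
            exact ⟨hf, ⟨f /ₘ mo a, by linear_combination -(modByMonic_add_div f (mo a))⟩⟩
        · rintro ⟨r, _, hr⟩
          exact (mem_filter.1 hr).1
      conv_lhs => rw [h4]
      rw [card_biUnion]
      intro r hr r' hr' hne
      rw [Function.onFun, disjoint_left]
      intro p hp hp'
      apply hne
      rw [mem_filter] at hp hp'
      rw [mem_coe, PhiG.mem_Rd] at hr hr'
      have h3 : mo a ∣ r - r' := by
        have := dvd_sub hp'.2 hp.2
        have e : p - r' - (p - r) = r - r' := by ring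
        rwa [e] at this
      have h4 : (r - r').degree < (mo a).degree := lt_of_le_of_lt (degree_sub_le _ _) (max_lt hr.1 hr'.1)
      exact sub_eq_zero.1 (eq_zero_of_dvd_of_degree_lt h3 h4)
    exact_mod_cast h3
  rw [← hN, ← hY]
  have hcard : ((PhiG.Rd (mo a)).card : ℝ) = φ := by rw [hφ, PhiG.card_Rd]
  have e1 : Y = ∑ r ∈ PhiG.Rd (mo a), Y / φ := by
    rw [sum_const, nsmul_eq_mul, hcard]
    field_simp
  have e2 : ε * Y = ∑ r ∈ PhiG.Rd (mo a), ε / φ * Y := by
    rw [sum_const, nsmul_eq_mul, hcard]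
    field_simp
  rw [hdec, e2]
  calc |∑ r ∈ PhiG.Rd (mo a), (((Ss K a b s t n m).filter (fun f => mo a ∣ f - r)).card : ℝ) - Y|
      = |∑ r ∈ PhiG.Rd (mo a), ((((Ss K a b s t n m).filter (fun f => mo a ∣ f - r)).card : ℝ) - Y / φ)| := by
        rw [sum_sub_distrib, ← e1]
    _ ≤ _ := le_trans (abs_sum_le_sum_abs _ _) (sum_le_sum h1)

end cnt

end Pool.Agent.H77.CC
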