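import Pool.Agent.H77.CC.Count

/-!
# Chains `T^i(x)`, `T(x) = a x + b`, over `K[X]`: prescribed divisors at some of the times (helper77)
-/

set_option autoImplicit false
set_option linter.all false

namespace Pool.Agent.H77.CC

open Polynomial Finset
open scoped Classical

variable {K : Type} [Field K]

/-- the iterates at two arguments -/
theorem iter_sub (a b x y : K[X]) (i : ℕ) : (T a b)^[i] x - (T a b)^[i] y = a ^ i * (x - y) := by
  rw [iter, iter]
  ring

theorem iter_lin (a b M g c : K[X]) (i : ℕ) :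
    (T a b)^[i] (M * g + c) = a ^ i * M * g + (T a b)^[i] c := by
  rw [iter, iter]
  ring

/-- the iterates at two times -/
theorem iter_add (a b x : K[X]) (i m : ℕ) :
    (T a b)^[i + m] x = a ^ m * (T a b)^[i] x + b * ∑ j ∈ range m, a ^ j := by
  rw [Nat.add_comm, Function.iterate_add_apply, iter a b ((T a b)^[i] x) m]

theorem geom_deg {a : K[X]} (ha : 1 ≤ a.natDegree) (i : ℕ) :
    ∑ j ∈ Finset.range (i + 1), a ^ j ≠ 0 ∧ (∑ j ∈ Finset.range (i + 1), a ^ j).natDegree = i * a.natDegree := by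
  have h1 : (∑ j ∈ Finset.range (i + 1), a ^ j).natDegree = i * a.natDegree := by
    induction i with
    | zero => simp
    | succ i ih =>
      rw [Finset.sum_range_succ, natDegree_add_eq_right_of_natDegree_lt, natDegree_pow]
      rw [ih, natDegree_pow]
      exact Nat.mul_lt_mul_of_pos_right (Nat.lt_succ_self i) ha
  refine ⟨?_, h1⟩
  intro h
  rcases Nat.eq_zero_or_pos i with h3 | h3
  · subst h3
    simp at h
  · rw [h, natDegree_zero] at h1
    have := Nat.mul_pos h3 ha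
    omega

/-- an irreducible `P` of large degree divides at most one of the terms of a chain -/
theorem one_time {a b : K[X]} (ha : 1 ≤ a.natDegree) (hb : b ≠ 0) {L : ℕ} {P : K[X]} (hP : Irreducible P)
    (hd : b.natDegree + L * a.natDegree < P.natDegree) {s t : ℕ} (hs : s ≤ L) (ht : t ≤ L) (hst : s ≠ t)
    (x : K[X]) (h1 : P ∣ (T a b)^[s] x) (h2 : P ∣ (T a b)^[t] x) : False := by
  wlog hlt : s < t generalizing s t
  · exact this ht hs (Ne.symm hst) h2 h1 (lt_of_le_of_ne (not_lt.1 hlt) (Ne.symm hst))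
  obtain ⟨m, rfl⟩ := Nat.exists_eq_add_of_lt hlt
  rw [show s + m + 1 = s + (m + 1) from rfl, iter_add] at h2
  have h3 : P ∣ b * ∑ j ∈ range (m + 1), a ^ j := by
    have h4 : P ∣ a ^ (m + 1) * (T a b)^[s] x := h1.mul_left _
    exact (dvd_add_right h4).1 h2
  obtain ⟨g1, g2⟩ := geom_deg ha m
  have hne : b * ∑ j ∈ range (m + 1), a ^ j ≠ 0 := mul_ne_zero hb g1
  have h5 := natDegree_le_of_dvd h3 hne
  rw [natDegree_mul hb g1, g2] at h5
  have h6 : m * a.natDegree ≤ L * a.natDegree := Nat.mul_le_mul_right _ (by omega)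
  omega

/-- the residue class for one divisor -/
theorem cls_one {a b P : K[X]} (hPa : IsCoprime P a) (i : ℕ) :
    ∃ c : K[X], ∀ f : K[X], P ∣ (T a b)^[i] f ↔ P ∣ f - c := by
  obtain ⟨u, v, huv⟩ := hPa.pow_right (n := i)
  refine ⟨v * (- (T a b)^[i] 0), fun f => ?_⟩
  have e : (T a b)^[i] f = a ^ i * f + (T a b)^[i] 0 := by
    have := iter_sub a b f 0 i
    rw [sub_zero] at this
    linear_combination this
  rw [e]
  constructor
  · intro h
    have e2 : f - v * (- (T a b)^[i] 0) = u * P * f + v * (a ^ i * f + (T a b)^[i] 0) := by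
      linear_combination f * (-huv)
    rw [e2]
    exact dvd_add ((dvd_mul_left P u).mul_right f) (h.mul_left v)
  · intro h
    have e2 : a ^ i * f + (T a b)^[i] 0 = a ^ i * (f - v * (- (T a b)^[i] 0)) +
        (u * P * (T a b)^[i] 0) := by
      linear_combination (T a b)^[i] 0 * (-huv)
    rw [e2]
    exact dvd_add (h.mul_left _) ((dvd_mul_left P u).mul_right _)

/-- the residue class -/
theorem cls_exists (a b : K[X]) (P : ℕ → K[X]) (C : Finset ℕ) (hPa : ∀ i ∈ C, IsCoprime (P i) a)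
    (hco : ∀ i ∈ C, ∀ j ∈ C, i ≠ j → IsCoprime (P i) (P j)) :
    ∃ c : K[X], ∀ f : K[X], (∀ i ∈ C, P i ∣ (T a b)^[i] f) ↔ (∏ i ∈ C, P i) ∣ f - c := by
  induction C using Finset.induction_on with
  | empty => exact ⟨0, fun f => by simp⟩
  | @insert i C hi ih =>
    obtain ⟨c, hc⟩ := ih (fun j hj => hPa j (mem_insert_of_mem hj))
      (fun j hj l hl => hco j (mem_insert_of_mem hj) l (mem_insert_of_mem hl))
    obtain ⟨d, hd⟩ := cls_one (b := b) (hPa i (mem_insert_self i C)) i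
    have hcop : IsCoprime (P i) (∏ j ∈ C, P j) :=
      IsCoprime.prod_right fun j hj => hco i (mem_insert_self i C) j (mem_insert_of_mem hj)
        (fun h => hi (h ▸ hj))
    obtain ⟨u, v, huv⟩ := id hcop
    refine ⟨d * (v * ∏ j ∈ C, P j) + c * (u * P i), fun f => ?_⟩
    rw [prod_insert hi]
    have e1 : f - (d * (v * ∏ j ∈ C, P j) + c * (u * P i)) = (f - d) + P i * (u * (d - c)) := by
      linear_combination (-d) * huv
    have e2 : f - (d * (v * ∏ j ∈ C, P j) + c * (u * P i)) =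
        (f - c) + (∏ j ∈ C, P j) * (v * (c - d)) := by
      linear_combination (-c) * huv
    have k1 : P i ∣ f - (d * (v * ∏ j ∈ C, P j) + c * (u * P i)) ↔ P i ∣ (T a b)^[i] f := by
      rw [hd, e1]
      exact dvd_add_left (dvd_mul_right _ _)
    have k2 : (∏ j ∈ C, P j) ∣ f - (d * (v * ∏ j ∈ C, P j) + c * (u * P i)) ↔
        ∀ j ∈ C, P j ∣ (T a b)^[j] f := by
      rw [hc, e2]
      exact dvd_add_left (dvd_mul_right _ _)
    constructor
    · intro h
      exact hcop.mul_dvd (k1.2 (h i (mem_insert_self i C)))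
        (k2.2 fun j hj => h j (mem_insert_of_mem hj))
    · intro h j hj
      rcases mem_insert.1 hj with rfl | hj
      · exact k1.1 ((dvd_mul_right _ _).trans h)
      · exact k2.1 ((dvd_mul_left _ _).trans h) j hj

/-- the data of a residue class -/
theorem cls_data {a b : K[X]} (ha : 1 ≤ a.natDegree) (hb : b ≠ 0) {L : ℕ} (P : ℕ → K[X]) (C : Finset ℕ)
    (hP : ∀ i ∈ C, (P i).Monic ∧ Irreducible (P i)) (hinj : ∀ i ∈ C, ∀ j ∈ C, P i = P j → i = j)
    (hL : ∀ i ∈ C, i ≤ L) (hL1 : 1 ≤ L)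
    (hd : ∀ i ∈ C, b.natDegree + L * a.natDegree < (P i).natDegree) :
    ∃ M c : K[X], M.Monic ∧ c.degree < M.degree ∧
      (∀ f : K[X], (∀ i ∈ C, P i ∣ (T a b)^[i] f) ↔ M ∣ f - c) ∧
      (∀ Q : K[X], Q.Monic → Irreducible Q → Q ∣ M → ∃ i ∈ C, Q = P i) := by
  have ha0 : a ≠ 0 := by
    rintro rfl
    rw [natDegree_zero] at ha
    omega
  have hPa : ∀ i ∈ C, IsCoprime (P i) a := by
    intro i hi
    rw [(hP i hi).2.coprime_iff_not_dvd]
    intro h
    have h1 := natDegree_le_of_dvd h ha0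
    have h2 := hd i hi
    have h3 : 1 * a.natDegree ≤ L * a.natDegree := Nat.mul_le_mul_right _ hL1
    omega
  have hco : ∀ i ∈ C, ∀ j ∈ C, i ≠ j → IsCoprime (P i) (P j) := by
    intro i hi j hj hij
    rw [(hP i hi).2.coprime_iff_not_dvd]
    intro h
    have h1 := eq_of_monic_of_associated (hP i hi).1 (hP j hj).1
      ((hP i hi).2.associated_of_dvd (hP j hj).2 h)
    exact hij (hinj i hi j hj h1)
  obtain ⟨c, hc⟩ := cls_exists a b P C hPa hco
  have hM : (∏ i ∈ C, P i).Monic := monic_prod_of_monic _ _ fun i hi => (hP i hi).1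
  refine ⟨∏ i ∈ C, P i, c %ₘ (∏ i ∈ C, P i), hM, ?_, fun f => ?_, fun Q hQ hQi hd => ?_⟩
  · exact degree_modByMonic_lt c hM
  · rw [hc]
    have e : f - c %ₘ (∏ i ∈ C, P i) = (f - c) + (∏ i ∈ C, P i) * (c /ₘ (∏ i ∈ C, P i)) := by
      have := modByMonic_add_div c (∏ i ∈ C, P i)
      linear_combination -this
    rw [e]
    exact (dvd_add_left (dvd_mul_right _ _)).symm
  · obtain ⟨i, hi, h⟩ := (hQi.prime.dvd_finset_prod_iff _).1 hd
    exact ⟨i, hi, eq_of_monic_of_associated hQ (hP i hi).1 (hQi.associated_of_dvd (hP i hi).2 h)⟩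

/-- admissibility in the residue class; `s` runs through the times which are not at `C` -/
theorem adm_cls {a b : K[X]} (ha : 1 ≤ a.natDegree) (hb : b ≠ 0) {L : ℕ} {P : ℕ → K[X]} {C : Finset ℕ}
    (hP : ∀ i ∈ C, (P i).Monic ∧ Irreducible (P i)) (hL : ∀ i ∈ C, i ≤ L)
    (hd : ∀ i ∈ C, b.natDegree + L * a.natDegree < (P i).natDegree) {M c : K[X]}
    (hc : ∀ f : K[X], (∀ i ∈ C, P i ∣ (T a b)^[i] f) ↔ M ∣ f - c)
    (hM : ∀ Q : K[X], Q.Monic → Irreducible Q → Q ∣ M → ∃ i ∈ C, Q = P i)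
    (A : Set ℕ) (hA : ∀ s ∈ A, s ≤ L ∧ s ∉ C)
    (hadm : ∀ Q : K[X], Irreducible Q → ∃ x : K[X], ∀ s ∈ A, ¬ Q ∣ (T a b)^[s] x)
    (Q : K[X]) (hQ : Q.Monic) (hQi : Irreducible Q) :
    ∃ x : K[X], ∀ s ∈ A, ¬ Q ∣ a ^ s * M * x + (T a b)^[s] c := by
  by_cases hQM : Q ∣ M
  · obtain ⟨i, hi, rfl⟩ := hM Q hQ hQi hQM
    refine ⟨0, fun s hs h => ?_⟩
    rw [mul_zero, zero_add] at h
    have h1 : P i ∣ (T a b)^[i] c := ((hc c).2 (by rw [sub_self]; exact dvd_zero M)) i hi
    exact one_time ha hb hQi (hd i hi) (hL i hi) (hA s hs).1 (fun e => (hA s hs).2 (e ▸ hi)) c h1 h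
  · obtain ⟨y, hy⟩ := hadm Q hQi
    have hcop : IsCoprime Q M := (hQi.coprime_iff_not_dvd).2 hQM
    obtain ⟨u, v, huv⟩ := hcop
    refine ⟨v * (y - c), fun s hs h => hy s hs ?_⟩
    rw [← iter_lin] at h
    have e : (T a b)^[s] y = (T a b)^[s] (M * (v * (y - c)) + c) + a ^ s * (u * (y - c) * Q) := by
      have := iter_sub a b y (M * (v * (y - c)) + c) s
      linear_combination this + a ^ s * (y - c) * (-huv)
    rw [e]
    exact dvd_add h ((dvd_mul_left Q _).mul_left _)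

end Pool.Agent.H77.CC
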