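import Pool.Agent.H77.CC.ExQ
import Pool.Agent.H985.Par.Final

/-!
# The number of the sifted terms of chains (helper77; fundamental lemma: helper183, helper675)
-/

set_option autoImplicit false
set_option linter.all false

namespace Pool.Agent.H77.CC

open Polynomial Finset UniqueFactorizationMonoid
open scoped Classical
open Pool.Agent.H694.Typ (Mn Irn PU mem_Mn mem_Irn mem_PU)

variable {K : Type} [Field K] [Fintype K]

/-- the residues `r` modulo `P` for which `P` divides some `T^(t i)(r)` -/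
noncomputable def Om (a b : K[X]) {k : ℕ} (t : Fin k → ℕ) (P : K[X]) : Finset K[X] :=
  (((Pool.Agent.H985.CG.PhiG.fin_deg P).subset
    (fun r h => h.1) : {r : K[X] | r.degree < P.degree ∧ ∃ i, P ∣ (T a b)^[t i] r}.Finite)).toFinset

theorem mem_Om {a b : K[X]} {k : ℕ} {t : Fin k → ℕ} {P r : K[X]} :
    r ∈ Om a b t P ↔ r.degree < P.degree ∧ ∃ i, P ∣ (T a b)^[t i] r := by
  unfold Om
  rw [Set.Finite.mem_toFinset]
  exact Iff.rfl

/-- the product over the monic irreducible `P` of degree at most `m` not dividing `M` -/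
noncomputable def sv (K : Type) [Field K] [Fintype K] (a b : K[X]) {k : ℕ} (t : Fin k → ℕ) (M : K[X])
    (m : ℕ) : ℝ :=
  ∏ P ∈ (PU K m).filter (fun P => ¬ P ∣ M),
    (1 - ((Om a b t P).card : ℝ) / (Fintype.card K : ℝ) ^ P.natDegree)

/-- the sifted `f` in the class `c` modulo `M` -/
noncomputable def Sm (K : Type) [Field K] [Fintype K] (a b : K[X]) {k : ℕ} (t : Fin k → ℕ) (M c : K[X])
    (n m : ℕ) : Finset K[X] :=
  (Mn K n).filter (fun f => M ∣ f - c ∧ ∀ i, ∀ Q : K[X], Q.Monic → Irreducible Q → ¬ Q ∣ M →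
    Q ∣ (T a b)^[t i] f → m < Q.natDegree)

theorem om_one {a b P : K[X]} (hab : IsCoprime a b) (hP : Irreducible P) (s : ℕ) {x y : K[X]}
    (hx : x.degree < P.degree) (hy : y.degree < P.degree) (h1 : P ∣ (T a b)^[s] x)
    (h2 : P ∣ (T a b)^[s] y) : x = y := by
  have h3 : P ∣ a ^ s * (x - y) := by
    rw [← iter_sub a b]
    exact dvd_sub h1 h2
  have h4 : P ∣ x - y := by
    rcases hP.prime.dvd_or_dvd h3 with h | h
    · exfalso
      rcases Nat.eq_zero_or_pos s with h0 | h0
      · rw [h0, pow_zero] at h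
        exact hP.not_isUnit (isUnit_of_dvd_one h)
      · exact not_dvd_iter hab hP (hP.prime.dvd_of_dvd_pow h) x s h0 h1
    · exact h
  have h5 : (x - y).degree < P.degree := lt_of_le_of_lt (degree_sub_le _ _) (max_lt hx hy)
  exact sub_eq_zero.1 (eq_zero_of_dvd_of_degree_lt h4 h5)

theorem om_card {a b P : K[X]} (hab : IsCoprime a b) (hP : Irreducible P) {k : ℕ} (t : Fin k → ℕ) :
    (Om a b t P).card ≤ k := by
  have h1 : Om a b t P ⊆ Finset.univ.biUnion (fun i : Fin k =>
      (Om a b t P).filter (fun r => P ∣ (T a b)^[t i] r)) := by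
    intro r hr
    obtain ⟨i, hi⟩ := (mem_Om.1 hr).2
    rw [mem_biUnion]
    exact ⟨i, mem_univ _, mem_filter.2 ⟨hr, hi⟩⟩
  refine (card_le_card h1).trans (card_biUnion_le.trans ?_)
  refine (sum_le_sum (g := fun _ => 1) (fun i _ => ?_)).trans (by simp)
  rw [card_le_one]
  intro x hx y hy
  rw [mem_filter, mem_Om] at hx hy
  exact om_one hab hP (t i) hx.1.1 hy.1.1 hx.2 hy.2

/-- sieving by the residues -/
theorem om_iff {a b P : K[X]} (hP : P.Monic) {k : ℕ} (t : Fin k → ℕ) (f : K[X]) :
    (∀ r ∈ Om a b t P, ¬ P ∣ f - r) ↔ ∀ i, ¬ P ∣ (T a b)^[t i] f := by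
  constructor
  · intro h i hi
    have e := modByMonic_add_div f P
    have h1 : P ∣ f - f %ₘ P := ⟨f /ₘ P, by linear_combination -e⟩
    refine h (f %ₘ P) ?_ h1
    rw [mem_Om]
    refine ⟨degree_modByMonic_lt f hP, i, ?_⟩
    have h2 : (T a b)^[t i] (f %ₘ P) = (T a b)^[t i] f - a ^ t i * (f - f %ₘ P) := by
      rw [← iter_sub a b]
      ring
    rw [h2]
    exact dvd_sub hi (h1.mul_left _)
  · intro h r hr hd
    obtain ⟨i, hi⟩ := (mem_Om.1 hr).2
    apply h i
    have h2 : (T a b)^[t i] f = (T a b)^[t i] r + a ^ t i * (f - r) := by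
      rw [← iter_sub a b]
      ring
    rw [h2]
    exact dvd_add hi (hd.mul_left _)

theorem om_le {a b P : K[X]} (hP : P.Monic) {k : ℕ} (t : Fin k → ℕ) :
    (Om a b t P).card ≤ Fintype.card K ^ P.natDegree ∧
    ((Om a b t P).card = Fintype.card K ^ P.natDegree → ∀ r : K[X], r.degree < P.degree →
      r ∈ Om a b t P) := by
  have h0 : (Finset.univ : Finset (Fin P.natDegree → K)).card = Fintype.card K ^ P.natDegree := by
    rw [card_univ, Fintype.card_pi]
    simp
  obtain ⟨R, hR⟩ : ∃ R : Finset K[X], R = (Pool.Agent.H985.CG.PhiG.fin_deg P).toFinset := ⟨_, rfl⟩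
  have hR1 : R.card ≤ Fintype.card K ^ P.natDegree := by
    have h2 : R ⊆ (Finset.univ : Finset (Fin P.natDegree → K)).image
        (fun c => Pool.Agent.H694.Typ.pol c) := by
      intro r hr
      rw [hR, Set.Finite.mem_toFinset, Set.mem_setOf_eq, degree_eq_natDegree hP.ne_zero] at hr
      obtain ⟨c, hc⟩ := Pool.Agent.H694.Typ.exists_pol hr
      exact mem_image.2 ⟨c, mem_univ _, hc⟩
    exact (card_le_card h2).trans (card_image_le.trans h0.le)
  have hsub : Om a b t P ⊆ R := by
    intro r hr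
    rw [hR, Set.Finite.mem_toFinset]
    exact (mem_Om.1 hr).1
  refine ⟨(card_le_card hsub).trans hR1, fun h r hr => ?_⟩
  have h3 : Om a b t P = R := eq_of_subset_of_card_le hsub (hR1.trans h.ge)
  rw [h3, hR, Set.Finite.mem_toFinset]
  exact hr

/-- **The number of the sifted `f`.** -/
theorem sifted_count (K : Type) [Field K] [Fintype K] (k : ℕ) (ε : ℝ) (hε : 0 < ε) : ∃ A : ℕ,
    ∀ (a b : K[X]) (t : Fin k → ℕ) (M c : K[X]) (n m : ℕ), IsCoprime a b → M.Monic →
      c.degree < M.degree → 1 ≤ m → M.natDegree < n → A * m ≤ n - M.natDegree →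
      |((Sm K a b t M c n m).card : ℝ) - sv K a b t M m * (Fintype.card K : ℝ) ^ (n - M.natDegree)| ≤
        ε * (sv K a b t M m * (Fintype.card K : ℝ) ^ (n - M.natDegree)) := by
  obtain ⟨A, hA⟩ := Pool.Agent.H985.Par.s_sw K k ε hε
  refine ⟨A, ?_⟩
  intro a b t M c n m hab hM hc hm hn hAm
  obtain ⟨n', hn'⟩ : ∃ n', n' = n - M.natDegree := ⟨_, rfl⟩
  rw [← hn'] at hAm ⊢
  -- membership
  have hmem : ∀ f : K[X], (M ∣ f - c → (f ∈ Sm K a b t M c n m ↔ f ∈ Mn K n ∧
      ∀ P ∈ (PU K m).filter (fun P => ¬ P ∣ M), ∀ r ∈ Om a b t P, ¬ P ∣ f - r)) := by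
    intro f hf
    unfold Sm
    rw [mem_filter]
    constructor
    · rintro ⟨h1, h2, h3⟩
      refine ⟨h1, fun P hP => ?_⟩
      rw [mem_filter, mem_PU] at hP
      rw [om_iff hP.1.1]
      intro i hi
      have := h3 i P hP.1.1 hP.1.2.1 hP.2 hi
      have h4 := hP.1.2.2
      omega
    · rintro ⟨h1, h2⟩
      refine ⟨h1, hf, fun i Q hQ hQi hQM hd => ?_⟩
      by_contra hcon
      have hQ2 : Q ∈ (PU K m).filter (fun P => ¬ P ∣ M) := by
        rw [mem_filter, mem_PU]
        exact ⟨⟨hQ, hQi, not_lt.1 hcon⟩, hQM⟩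
      exact (om_iff hQ t f).1 (h2 Q hQ2) i hd
  by_cases hbad : ∃ P ∈ (PU K m).filter (fun P => ¬ P ∣ M),
      (Om a b t P).card = Fintype.card K ^ P.natDegree
  · obtain ⟨P, hP, hcard⟩ := hbad
    have hV : sv K a b t M m = 0 := by
      unfold sv
      apply prod_eq_zero hP
      rw [hcard]
      have : (0 : ℝ) < (Fintype.card K : ℝ) ^ P.natDegree := by
        have : (0 : ℝ) < (Fintype.card K : ℝ) := by exact_mod_cast Fintype.card_pos
        positivity
      push_cast
      rw [div_self this.ne', sub_self]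
    have hS : (Sm K a b t M c n m).card = 0 := by
      rw [card_eq_zero, eq_empty_iff_forall_notMem]
      intro f hf
      have hf2 : M ∣ f - c := by
        unfold Sm at hf
        exact (mem_filter.1 hf).2.1
      have h1 := ((hmem f hf2).1 hf).2 P hP
      rw [mem_filter, mem_PU] at hP
      have h2 := (om_le hP.1.1 t).2 hcard (f %ₘ P) (degree_modByMonic_lt f hP.1.1)
      have e := modByMonic_add_div f P
      exact h1 _ h2 ⟨f /ₘ P, by linear_combination -e⟩
    rw [hV, hS]
    simp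
  push Not at hbad
  have h := hA n' m ((PU K m).filter (fun P => ¬ P ∣ M)) (Om a b t) M (c + M * X ^ n') hm hAm ?_ ?_
  · obtain ⟨h1, h2, -⟩ := h
    have hset : {u : K[X] | u.degree < (n' : WithBot ℕ) ∧
        ∀ P ∈ (PU K m).filter (fun P => ¬ P ∣ M), ∀ r ∈ Om a b t P,
          ¬ P ∣ c + M * X ^ n' + M * u - r}.ncard = (Sm K a b t M c n m).card := by
      rw [← Set.ncard_coe_finset]
      have hinj : Function.Injective (fun u : K[X] => c + M * X ^ n' + M * u) := by
        intro u v e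
        exact mul_left_cancel₀ hM.ne_zero (add_left_cancel e)
      rw [← Set.ncard_image_of_injective _ hinj]
      congr 1
      ext f
      rw [Set.mem_image, mem_coe]
      constructor
      · rintro ⟨u, ⟨hu1, hu2⟩, rfl⟩
        have e : c + M * X ^ n' + M * u = M * (X ^ n' + u) + c := by ring
        have hd : M ∣ (c + M * X ^ n' + M * u) - c := ⟨X ^ n' + u, by ring⟩
        rw [hmem _ hd]
        refine ⟨?_, hu2⟩
        rw [e]
        refine map_mem hM hc hn ?_
        rw [← hn', mem_Mn]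
        refine ⟨monic_X_pow_add hu1, natDegree_eq_of_degree_eq_some ?_⟩
        rw [degree_add_eq_left_of_degree_lt (by rw [degree_X_pow]; exact hu1), degree_X_pow]
      · intro hf
        have hf2 : M ∣ f - c := by
          unfold Sm at hf
          exact (mem_filter.1 hf).2.1
        have hf3 := (hmem f hf2).1 hf
        obtain ⟨g, hg, e⟩ := map_surj hM hc hn hf3.1 hf2
        rw [← hn', mem_Mn] at hg
        have e2 : c + M * X ^ n' + M * (g - X ^ n') = f := by
          rw [← e]
          ring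
        refine ⟨g - X ^ n', ⟨?_, ?_⟩, e2⟩
        · have h3 : g.degree = (X ^ n' : K[X]).degree := by
            rw [degree_X_pow, degree_eq_natDegree hg.1.ne_zero, hg.2]
          have h4 := degree_sub_lt h3 hg.1.ne_zero
            (by rw [hg.1.leadingCoeff, leadingCoeff_X_pow])
          rw [h3, degree_X_pow] at h4
          exact h4
        · rw [e2]
          exact hf3.2
    have hV : ∏ P ∈ (PU K m).filter (fun P => ¬ P ∣ M),
        (1 - ((Om a b t P).card : ℝ) / (Fintype.card K : ℝ) ^ P.natDegree) = sv K a b t M m := rfl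
    rw [hV, hset] at h1 h2
    rw [abs_le]
    constructor
    · nlinarith [h1, h2]
    · nlinarith [h1, h2]
  · intro P hP
    rw [mem_filter, mem_PU] at hP
    exact ⟨hP.1.1, hP.1.2.1, hP.1.2.2, ((hP.1.2.1.coprime_iff_not_dvd).2 hP.2).symm⟩
  · intro P hP
    have hP2 := hP
    rw [mem_filter, mem_PU] at hP
    exact ⟨om_card hab hP.1.2.1 t, lt_of_le_of_ne (om_le hP.1.1 t).1 (hbad P hP2),
      fun r hr => (mem_Om.1 hr).1⟩

end Pool.Agent.H77.CC
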