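import Pool.Agent.H77.CC.ExC

/-!
# Exact patterns of chains: the asymptotic formula for every pattern of parities (helper77)
-/

set_option autoImplicit false
set_option linter.all false

namespace Pool.Agent.H77.CC

open Polynomial Finset UniqueFactorizationMonoid
open scoped Classical
open Pool.Agent.H694.Typ (Mn Irn PU mem_Mn mem_Irn mem_PU)
open Pool.Agent.H985.Chow (mob)
open Pool.Agent.H985.Par (Lfs Sft lin_few lin_patt)

variable {K : Type} [Field K] [Fintype K]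

/-- the data of a residue class -/
theorem cls_prod {a b : K[X]} (ha : 1 ≤ a.natDegree) (hb : b ≠ 0) {L : ℕ} (P : ℕ → K[X]) (C : Finset ℕ)
    (hP : ∀ i ∈ C, (P i).Monic ∧ Irreducible (P i)) (hinj : ∀ i ∈ C, ∀ j ∈ C, P i = P j → i = j)
    (hL1 : 1 ≤ L) (hd : ∀ i ∈ C, b.natDegree + L * a.natDegree < (P i).natDegree) :
    (∏ i ∈ C, P i).Monic ∧ (∀ Q : K[X], Q.Monic → Irreducible Q → Q ∣ ∏ i ∈ C, P i → ∃ i ∈ C, Q = P i) ∧
    ∃ c : K[X], c.degree < (∏ i ∈ C, P i).degree ∧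
      ∀ f : K[X], (∀ i ∈ C, P i ∣ (T a b)^[i] f) ↔ (∏ i ∈ C, P i) ∣ f - c := by
  have ha0 : a ≠ 0 := by
    rintro rfl
    rw [natDegree_zero] at ha
    omega
  have hPa : ∀ i ∈ C, IsCoprime (P i) a := by
    intro i hi
    rw [(hP i hi).2.coprime_iff_not_dvd]
    intro h
    have h1 := natDegree_le_of_dvd h ha0
    have h2 := hd i hi
    have h3 : 1 * a.natDegree ≤ L * a.natDegree := Nat.mul_le_mul_right _ hL1
    omega
  have hco : ∀ i ∈ C, ∀ j ∈ C, i ≠ j → IsCoprime (P i) (P j) := by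
    intro i hi j hj hij
    rw [(hP i hi).2.coprime_iff_not_dvd]
    intro h
    have h1 := eq_of_monic_of_associated (hP i hi).1 (hP j hj).1
      ((hP i hi).2.associated_of_dvd (hP j hj).2 h)
    exact hij (hinj i hi j hj h1)
  obtain ⟨c, hc⟩ := cls_exists a b P C hPa hco
  have hM : (∏ i ∈ C, P i).Monic := monic_prod_of_monic _ _ fun i hi => (hP i hi).1
  refine ⟨hM, fun Q hQ hQi hd => ?_, c %ₘ (∏ i ∈ C, P i), degree_modByMonic_lt c hM, fun f => ?_⟩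
  · obtain ⟨i, hi, h⟩ := (hQi.prime.dvd_finset_prod_iff _).1 hd
    exact ⟨i, hi, eq_of_monic_of_associated hQ (hP i hi).1 (hQi.associated_of_dvd (hP i hi).2 h)⟩
  · rw [hc]
    have e : f - c %ₘ (∏ i ∈ C, P i) = (f - c) + (∏ i ∈ C, P i) * (c /ₘ (∏ i ∈ C, P i)) := by
      have := modByMonic_add_div c (∏ i ∈ C, P i)
      linear_combination -this
    rw [e]
    exact (dvd_add_left (dvd_mul_right _ _)).symm

/-- **The number of the sifted elements with a given pattern of parities.** -/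
theorem exactQ_count [CharP K 2] {a b : K[X]} (ha : 1 ≤ a.natDegree) (hb : b ≠ 0) (hab : IsCoprime a b)
    {k : ℕ} (t : Fin k → ℕ) (ht : Function.Injective t) {L : ℕ} (hL1 : 1 ≤ L) (hLt : ∀ i, t i ≤ L)
    (C : Finset ℕ) (hLC : ∀ i ∈ C, i ≤ L) (hCt : ∀ i, t i ∉ C) (P : ℕ → K[X])
    (hP : ∀ i ∈ C, (P i).Monic ∧ Irreducible (P i)) (hinj : ∀ i ∈ C, ∀ j ∈ C, P i = P j → i = j)
    (hd : ∀ i ∈ C, b.natDegree + L * a.natDegree < (P i).natDegree) (ε : ℝ) (hε : 0 < ε) :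
    ∃ κ : ℝ, 0 < κ ∧ ∃ m₀ n₀ : ℕ, ∀ n : ℕ, n₀ ≤ n → ∀ m : ℕ, m₀ ≤ m → (m : ℝ) ≤ κ * n →
      ∀ σ : Fin k → ℤ, (∀ i, σ i = 1 ∨ σ i = -1) →
      |(((Mn K n).filter (fun f => ((∀ i ∈ C, P i ∣ (T a b)^[i] f) ∧
          ∀ i, Sft m ((T a b)^[t i] f)) ∧ ∀ i, mob ((T a b)^[t i] f) = σ i)).card : ℝ) -
        sv K a b t (∏ i ∈ C, P i) m * (Fintype.card K : ℝ) ^ (n - (∏ i ∈ C, P i).natDegree) / 2 ^ k| ≤
        ε * (sv K a b t (∏ i ∈ C, P i) m *
          (Fintype.card K : ℝ) ^ (n - (∏ i ∈ C, P i).natDegree)) := by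
  obtain ⟨hM, hMQ, c, hc, hcls⟩ := cls_prod ha hb P C hP hinj hL1 hd
  obtain ⟨M, hMdef⟩ : ∃ M, M = ∏ i ∈ C, P i := ⟨_, rfl⟩
  rw [← hMdef] at hM hMQ hc hcls ⊢
  obtain ⟨ε₁, hε₁⟩ : ∃ ε₁ : ℝ, ε₁ = min (ε / 2) 1 := ⟨_, rfl⟩
  have hε₁0 : 0 < ε₁ := by rw [hε₁]; exact lt_min (by positivity) one_pos
  have hε₁1 : ε₁ ≤ ε / 2 := by rw [hε₁]; exact min_le_left _ _
  have hε₁2 : ε₁ ≤ 1 := by rw [hε₁]; exact min_le_right _ _
  obtain ⟨κ, hκ, m₀, N, H⟩ := exactQ_patt ha hb t ht hL1 C hLC P hP hinj hd (ε / 4) (by positivity)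
  obtain ⟨A, hA⟩ := sifted_count K k ε₁ hε₁0
  refine ⟨min κ (1 / (2 * (A + 1))), lt_min hκ (by positivity), max m₀ 1,
    N + 2 * M.natDegree + 1, fun n hn m hm hmκ σ hσ => ?_⟩
  have hn1 : M.natDegree < n := by omega
  have hm1 : m₀ ≤ m := le_trans (le_max_left _ _) hm
  have hm2 : 1 ≤ m := le_trans (le_max_right _ _) hm
  have hmκ1 : (m : ℝ) ≤ κ * n :=
    hmκ.trans (mul_le_mul_of_nonneg_right (min_le_left _ _) (Nat.cast_nonneg _))
  have hmκ2 : (m : ℝ) ≤ 1 / (2 * (A + 1)) * n :=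
    hmκ.trans (mul_le_mul_of_nonneg_right (min_le_right _ _) (Nat.cast_nonneg _))
  have hAm : A * m ≤ n - M.natDegree := by
    have hA0 : (0 : ℝ) < 2 * (A + 1) := by positivity
    have h1 : (m : ℝ) * (2 * (A + 1)) ≤ n := by
      have e : 1 / (2 * ((A : ℝ) + 1)) * n = n / (2 * (A + 1)) := by ring
      rw [e, le_div_iff₀ hA0] at hmκ2
      exact hmκ2
    have h2 : m * (2 * (A + 1)) ≤ n := by exact_mod_cast h1
    have h3 : 2 * (A * m) ≤ m * (2 * (A + 1)) := by nlinarith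
    omega
  have h1 := H n (by omega) m hm1 hmκ1 σ hσ
  have h2 := hA a b t M c n m hab hM hc hm2 hn1 hAm
  have hS : ((Mn K n).filter (fun f => (∀ i ∈ C, P i ∣ (T a b)^[i] f) ∧
      ∀ i, Sft m ((T a b)^[t i] f))) = Sm K a b t M c n m := by
    unfold Sm
    apply filter_congr
    intro f _
    rw [← hcls]
    refine and_congr_right fun hf => forall_congr' fun i => ?_
    constructor
    · intro h Q hQ hQi _ hd
      exact h Q hQ hQi hd
    · intro h Q hQ hQi hd'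
      refine h Q hQ hQi (fun hQM => ?_) hd'
      obtain ⟨j, hj, rfl⟩ := hMQ Q hQ hQi hQM
      exact one_time ha hb hQi (hd j hj) (hLC j hj) (hLt i) (fun e => hCt i (e ▸ hj)) f (hf j hj) hd'
  rw [hS] at h1
  obtain ⟨W, hW⟩ : ∃ W : ℝ, W = sv K a b t M m * (Fintype.card K : ℝ) ^ (n - M.natDegree) := ⟨_, rfl⟩
  rw [← hW] at h2 ⊢
  obtain ⟨Z, hZ⟩ : ∃ Z : ℝ, Z = ((Sm K a b t M c n m).card : ℝ) := ⟨_, rfl⟩
  rw [← hZ] at h1 h2
  have hZ0 : 0 ≤ Z := by rw [hZ]; exact Nat.cast_nonneg _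
  have hk1 : (1 : ℝ) ≤ 2 ^ k := one_le_pow₀ (by norm_num)
  have hk0 : (0 : ℝ) < 2 ^ k := by positivity
  have hW0 : 0 ≤ W := by
    by_contra hcon
    rw [not_le] at hcon
    have h3 := (abs_nonneg _).trans h2
    nlinarith
  have hZW : Z ≤ 2 * W := by
    have := (abs_le.1 h2).2
    nlinarith
  have h3 : |Z / 2 ^ k - W / 2 ^ k| ≤ ε / 2 * W := by
    rw [← sub_div, abs_div, abs_of_pos hk0]
    calc |Z - W| / 2 ^ k ≤ |Z - W| / 1 := div_le_div_of_nonneg_left (abs_nonneg _) one_pos hk1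
      _ = |Z - W| := div_one _
      _ ≤ ε₁ * W := h2
      _ ≤ ε / 2 * W := mul_le_mul_of_nonneg_right hε₁1 hW0
  calc _ ≤ |(((Mn K n).filter (fun f => ((∀ i ∈ C, P i ∣ (T a b)^[i] f) ∧
          ∀ i, Sft m ((T a b)^[t i] f)) ∧ ∀ i, mob ((T a b)^[t i] f) = σ i)).card : ℝ) - Z / 2 ^ k| +
          |Z / 2 ^ k - W / 2 ^ k| := abs_sub_le _ _ _
    _ ≤ ε / 4 * Z + ε / 2 * W := add_le_add h1 h3
    _ ≤ ε / 4 * (2 * W) + ε / 2 * W := by
        have := mul_le_mul_of_nonneg_left hZW (by positivity : 0 ≤ ε / 4)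
        linarith
    _ = ε * W := by ring

end Pool.Agent.H77.CC
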