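import Pool.Agent.H77.CC.ExD

/-!
# Chains of almost primes with all the parities prescribed, uniformly in the constant of the map
(helper77, with helper985)
-/

set_option autoImplicit false
set_option linter.all false

namespace Pool.Agent.H77.CC

open Polynomial Finset UniqueFactorizationMonoid
open scoped Classical
open Pool.Agent.H694.Typ (Mn Irn PU mem_Mn mem_Irn mem_PU)
open Pool.Agent.H985.Chow (mob)
open Pool.Agent.H985.Par (Lfs Sft lin_few lin_patt)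

variable {K : Type} [Field K] [Fintype K]

/-- the constants of the forms are small -/
theorem const_deg {a : K[X]} (ha : 1 ≤ a.natDegree) (b : K[X]) (n : ℕ) (hb : b.natDegree < n + a.natDegree)
    (hn : 1 ≤ n) (t : ℕ) :
    (b * ∑ j ∈ Finset.range t, a ^ j).natDegree < n + (a ^ t).natDegree := by
  rcases Nat.eq_zero_or_pos t with h | h
  · subst h
    simp
    omega
  · obtain ⟨s, hs⟩ := Nat.exists_eq_add_of_le' h
    have h1 := (geom_deg ha s).2
    rw [natDegree_pow, hs]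
    refine lt_of_le_of_lt natDegree_mul_le ?_
    rw [h1]
    have e : (s + 1) * a.natDegree = s * a.natDegree + a.natDegree := by ring
    rw [e]
    omega

/-- the forms are different -/
theorem forms_ne {a : K[X]} (ha : 1 ≤ a.natDegree) {b : K[X]} (hb : b ≠ 0) {s t : ℕ} (hst : s ≠ t) :
    a ^ s * (b * ∑ j ∈ Finset.range t, a ^ j) ≠ a ^ t * (b * ∑ j ∈ Finset.range s, a ^ j) := by
  have h := nonprop (M := 1) (c := 0) ha hb one_ne_zero hst
  rw [iter, iter, mul_one, mul_one, mul_zero, mul_zero, zero_add, zero_add] at h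
  exact h

/-- **All parities: lower bound, uniformly in `b`.** -/
theorem long_low [CharP K 2] {a : K[X]} (ha : 1 ≤ a.natDegree) {k : ℕ} (t : Fin k → ℕ)
    (ht : Function.Injective t) :
    ∃ (r : ℕ) (c : ℝ), 0 < c ∧ ∃ N : ℕ, ∀ n : ℕ, N ≤ n → ∀ b : K[X], b ≠ 0 →
      b.natDegree < n + a.natDegree →
      (∀ Q : K[X], Irreducible Q → ∃ x : K[X], ∀ i, ¬ Q ∣ (T a b)^[t i] x) →
      ∀ σ : Fin k → ℤ, (∀ i, σ i = 1 ∨ σ i = -1) →
      c * (Fintype.card K : ℝ) ^ n / (n : ℝ) ^ k ≤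
        (((Mn K n).filter (fun f =>
          ∀ i, mob ((T a b)^[t i] f) = σ i ∧ Multiset.card (factors ((T a b)^[t i] f)) ≤ r ∧
            ∀ Q : K[X], Irreducible Q → Q ∣ (T a b)^[t i] f → n ≤ (r + 1) * Q.natDegree)).card : ℝ) := by
  have ha0 : a ≠ 0 := by
    rintro rfl
    rw [natDegree_zero] at ha
    omega
  obtain ⟨r, c, hc, N, H⟩ := lin_few K (k := k) (fun i => a ^ t i) (fun i => pow_ne_zero _ ha0)
  refine ⟨r, c, hc, max N 1, fun n hn b hb0 hbd hadm σ hσ => ?_⟩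
  have hn1 : N ≤ n := le_trans (le_max_left _ _) hn
  have hn2 : 1 ≤ n := le_trans (le_max_right _ _) hn
  have h := H n hn1 (fun i => b * ∑ j ∈ range (t i), a ^ j) (fun i => const_deg ha b n hbd hn2 (t i))
    (fun i j hij => forms_ne ha hb0 (fun h => hij (ht h))) ?_ σ hσ
  · simp only [← iter] at h
    exact h
  · intro Q hQ hQi
    obtain ⟨x, hx⟩ := hadm Q hQi
    refine ⟨x, fun i => ?_⟩
    show ¬ Q ∣ a ^ t i * x + b * ∑ j ∈ range (t i), a ^ j
    rw [← iter]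
    exact hx i

/-- **All parities: asymptotic formula, uniformly in `b`.** -/
theorem long_count [CharP K 2] {a : K[X]} (ha : 1 ≤ a.natDegree) {k : ℕ} (t : Fin k → ℕ)
    (ht : Function.Injective t) (ε : ℝ) (hε : 0 < ε) :
    ∃ κ : ℝ, 0 < κ ∧ ∃ m₀ n₀ : ℕ, ∀ n : ℕ, n₀ ≤ n → ∀ m : ℕ, m₀ ≤ m → (m : ℝ) ≤ κ * n →
      ∀ b : K[X], b ≠ 0 → b.natDegree < n + a.natDegree → IsCoprime a b →
      ∀ σ : Fin k → ℤ, (∀ i, σ i = 1 ∨ σ i = -1) →
      |(((Mn K n).filter (fun f => (∀ i, Sft m ((T a b)^[t i] f)) ∧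
          ∀ i, mob ((T a b)^[t i] f) = σ i)).card : ℝ) -
        sv K a b t 1 m * (Fintype.card K : ℝ) ^ n / 2 ^ k| ≤
        ε * (sv K a b t 1 m * (Fintype.card K : ℝ) ^ n) := by
  have ha0 : a ≠ 0 := by
    rintro rfl
    rw [natDegree_zero] at ha
    omega
  obtain ⟨ε₁, hε₁⟩ : ∃ ε₁ : ℝ, ε₁ = min (ε / 2) 1 := ⟨_, rfl⟩
  have hε₁0 : 0 < ε₁ := by rw [hε₁]; exact lt_min (by positivity) one_pos
  have hε₁1 : ε₁ ≤ ε / 2 := by rw [hε₁]; exact min_le_left _ _
  have hε₁2 : ε₁ ≤ 1 := by rw [hε₁]; exact min_le_right _ _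
  obtain ⟨κ, hκ, m₀, N, H⟩ := lin_patt K (k := k) (fun i => a ^ t i) (fun i => pow_ne_zero _ ha0)
    (ε / 4) (by positivity)
  obtain ⟨A, hA⟩ := sifted_count K k ε₁ hε₁0
  refine ⟨min κ (1 / (A + 1)), lt_min hκ (by positivity), max m₀ 1,
    N + 1, fun n hn m hm hmκ b hb0 hbd hab σ hσ => ?_⟩
  have hm1 : m₀ ≤ m := le_trans (le_max_left _ _) hm
  have hm2 : 1 ≤ m := le_trans (le_max_right _ _) hm
  have hmκ1 : (m : ℝ) ≤ κ * n :=
    hmκ.trans (mul_le_mul_of_nonneg_right (min_le_left _ _) (Nat.cast_nonneg _))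
  have hmκ2 : (m : ℝ) ≤ 1 / (A + 1) * n :=
    hmκ.trans (mul_le_mul_of_nonneg_right (min_le_right _ _) (Nat.cast_nonneg _))
  have hAm : A * m ≤ n - (1 : K[X]).natDegree := by
    rw [natDegree_one]
    have hA0 : (0 : ℝ) < (A + 1) := by positivity
    have h1 : (m : ℝ) * (A + 1) ≤ n := by
      have e : 1 / ((A : ℝ) + 1) * n = n / (A + 1) := by ring
      rw [e, le_div_iff₀ hA0] at hmκ2
      exact hmκ2
    have h2 : m * (A + 1) ≤ n := by exact_mod_cast h1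
    have h3 : A * m ≤ m * (A + 1) := by nlinarith
    omega
  have h1 := H n (by omega) m hm1 hmκ1 (fun i => b * ∑ j ∈ range (t i), a ^ j)
    (fun i => const_deg ha b n hbd (by omega) (t i))
    (fun i j hij => forms_ne ha hb0 (fun h => hij (ht h))) σ hσ
  simp only [← iter] at h1
  have h2 := hA a b t 1 0 n m hab monic_one (by simp) hm2 (by rw [natDegree_one]; omega) hAm
  rw [natDegree_one, Nat.sub_zero] at h2
  have hS : Lfs K (fun i => a ^ t i) (fun i => b * ∑ j ∈ range (t i), a ^ j) n m =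
      Sm K a b t 1 0 n m := by
    unfold Sm Lfs
    apply filter_congr
    intro f _
    simp only [← iter]
    constructor
    · intro h
      exact ⟨one_dvd _, fun i Q hQ hQi _ hd => h i Q hQ hQi hd⟩
    · intro h i Q hQ hQi hd
      exact h.2 i Q hQ hQi (fun h1 => hQi.not_isUnit (isUnit_of_dvd_one h1)) hd
  have hS2 : (Mn K n).filter (fun f => (∀ i, Sft m ((T a b)^[t i] f)) ∧
      ∀ i, mob ((T a b)^[t i] f) = σ i) =
      (Lfs K (fun i => a ^ t i) (fun i => b * ∑ j ∈ range (t i), a ^ j) n m).filter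
        (fun f => ∀ i, mob ((T a b)^[t i] f) = σ i) := by
    unfold Lfs
    rw [filter_filter]
    simp only [← iter]
  rw [hS2]
  rw [hS] at h1 ⊢
  obtain ⟨W, hW⟩ : ∃ W : ℝ, W = sv K a b t 1 m * (Fintype.card K : ℝ) ^ n := ⟨_, rfl⟩
  rw [← hW] at h2 ⊢
  obtain ⟨Z, hZ⟩ : ∃ Z : ℝ, Z = ((Sm K a b t 1 0 n m).card : ℝ) := ⟨_, rfl⟩
  rw [← hZ] at h1 h2
  have hZ0 : 0 ≤ Z := by rw [hZ]; exact Nat.cast_nonneg _
  have hk1 : (1 : ℝ) ≤ 2 ^ k := one_le_pow₀ (by norm_num)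
  have hk0 : (0 : ℝ) < 2 ^ k := by positivity
  have hW0 : 0 ≤ W := by
    by_contra hcon
    rw [not_le] at hcon
    have h3 := (abs_nonneg _).trans h2
    nlinarith
  have hZW : Z ≤ 2 * W := by
    have := (abs_le.1 h2).2
    nlinarith
  have h3 : |Z / 2 ^ k - W / 2 ^ k| ≤ ε / 2 * W := by
    rw [← sub_div, abs_div, abs_of_pos hk0]
    calc |Z - W| / 2 ^ k ≤ |Z - W| / 1 := div_le_div_of_nonneg_left (abs_nonneg _) one_pos hk1
      _ = |Z - W| := div_one _
      _ ≤ ε₁ * W := h2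
      _ ≤ ε / 2 * W := mul_le_mul_of_nonneg_right hε₁1 hW0
  calc _ ≤ |(((Sm K a b t 1 0 n m).filter (fun f => ∀ i, mob ((T a b)^[t i] f) = σ i)).card : ℝ) -
          Z / 2 ^ k| + |Z / 2 ^ k - W / 2 ^ k| := abs_sub_le _ _ _
    _ ≤ ε / 4 * Z + ε / 2 * W := add_le_add h1 h3
    _ ≤ ε / 4 * (2 * W) + ε / 2 * W := by
        have := mul_le_mul_of_nonneg_left hZW (by positivity : 0 ≤ ε / 4)
        linarith
    _ = ε * W := by ring

end Pool.Agent.H77.CC
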