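import Pool.Agent.H77.CC.ExS

/-!
# The number of the sifted primes of exact patterns (helper77)
-/

set_option autoImplicit false
set_option linter.all false

namespace Pool.Agent.H77.CC

open Polynomial Finset UniqueFactorizationMonoid
open scoped Classical
open Pool.Agent.H694.Typ (Mn Irn PU mem_Mn mem_Irn mem_PU)
open Pool.Agent.H985.CG
open Pool.Agent.H985.Chow (mob)

variable {K : Type} [Field K] [Fintype K]

/-- reduction modulo a monic polynomial -/
theorem mod_dvd (p M : K[X]) : M ∣ p - p %ₘ M :=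
  ⟨p /ₘ M, by linear_combination -(modByMonic_add_div p M)⟩

theorem cop_congr {r s M : K[X]} (h : M ∣ r - s) (hs : IsCoprime s M) : IsCoprime r M := by
  obtain ⟨w, hw⟩ := h
  have e : r = s + M * w := by linear_combination hw
  rw [e]
  exact hs.add_mul_left_left w

/-- the reduced classes modulo `A M` over a reduced class modulo `M` -/
theorem card_over {A M c : K[X]} (hA : A.Monic) (hM : M.Monic) (hAM : IsCoprime A M)
    (hc : IsCoprime c M) :
    ((PhiG.Rd (A * M)).filter (fun r => M ∣ r - c)).card = phiQ A := by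
  rw [← PhiG.card_Rd]
  refine card_bij (fun r _ => r %ₘ A) ?_ ?_ ?_
  · intro r hr
    rw [mem_filter, PhiG.mem_Rd] at hr
    rw [PhiG.mem_Rd]
    refine ⟨degree_modByMonic_lt r hA, ?_⟩
    have h1 : IsCoprime r A := (IsCoprime.mul_right_iff.1 hr.1.2).1
    refine cop_congr ?_ h1
    have := mod_dvd r A
    rw [← dvd_neg]
    have e : -(r %ₘ A - r) = r - r %ₘ A := by ring
    rwa [e]
  · intro r hr r' hr' h
    rw [mem_filter, PhiG.mem_Rd] at hr hr'
    have h1 : A ∣ r - r' := by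
      have e : r - r' = (r - r %ₘ A) - (r' - r' %ₘ A) := by
        rw [h]
        ring
      rw [e]
      exact dvd_sub (mod_dvd r A) (mod_dvd r' A)
    have h2 : M ∣ r - r' := by
      have := dvd_sub hr.2 hr'.2
      have e : r - c - (r' - c) = r - r' := by ring
      rwa [e] at this
    have h3 := hAM.mul_dvd h1 h2
    have h4 : (r - r').degree < (A * M).degree :=
      lt_of_le_of_lt (degree_sub_le _ _) (max_lt hr.1.1 hr'.1.1)
    exact sub_eq_zero.1 (eq_zero_of_dvd_of_degree_lt h3 h4)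
  · intro s hs
    rw [PhiG.mem_Rd] at hs
    obtain ⟨u, v, huv⟩ := id hAM
    have hAMm : (A * M).Monic := hA.mul hM
    obtain ⟨r₀, hr₀⟩ : ∃ r₀ : K[X], r₀ = c * (u * A) + s * (v * M) := ⟨_, rfl⟩
    have h1 : M ∣ r₀ - c := ⟨v * (s - c), by
      rw [hr₀]
      linear_combination c * huv⟩
    have h2 : A ∣ r₀ - s := ⟨u * (c - s), by
      rw [hr₀]
      linear_combination s * huv⟩
    have h3 := mod_dvd r₀ (A * M)
    have h4 : M ∣ r₀ %ₘ (A * M) - c := by
      have e : r₀ %ₘ (A * M) - c = (r₀ - c) - (r₀ - r₀ %ₘ (A * M)) := by ring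
      rw [e]
      exact dvd_sub h1 ((dvd_mul_left M A).trans h3)
    have h5 : A ∣ r₀ %ₘ (A * M) - s := by
      have e : r₀ %ₘ (A * M) - s = (r₀ - s) - (r₀ - r₀ %ₘ (A * M)) := by ring
      rw [e]
      exact dvd_sub h2 ((dvd_mul_right A M).trans h3)
    refine ⟨r₀ %ₘ (A * M), ?_, ?_⟩
    · rw [mem_filter, PhiG.mem_Rd]
      exact ⟨⟨degree_modByMonic_lt _ hAMm, IsCoprime.mul_right (cop_congr h5 hs.2) (cop_congr h4 hc)⟩, h4⟩
    · have h6 : A ∣ r₀ %ₘ (A * M) %ₘ A - s := by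
        have e : r₀ %ₘ (A * M) %ₘ A - s =
            (r₀ %ₘ (A * M) - s) - (r₀ %ₘ (A * M) - r₀ %ₘ (A * M) %ₘ A) := by ring
        rw [e]
        exact dvd_sub h5 (mod_dvd _ A)
      have h7 : (r₀ %ₘ (A * M) %ₘ A - s).degree < A.degree :=
        lt_of_le_of_lt (degree_sub_le _ _) (max_lt (degree_modByMonic_lt _ hA) hs.1)
      exact sub_eq_zero.1 (eq_zero_of_dvd_of_degree_lt h6 h7)

theorem phi_mul {A M : K[X]} (hA : A.Monic) (hM : M.Monic) (hAM : IsCoprime A M) :
    phiQ (A * M) = phiQ A * phiQ M := by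
  rw [← PhiG.card_Rd, ← PhiG.card_Rd M]
  have h : PhiG.Rd (A * M) = (PhiG.Rd M).biUnion (fun c => (PhiG.Rd (A * M)).filter (fun r => M ∣ r - c)) := by
    ext r
    rw [mem_biUnion]
    constructor
    · intro hr
      have hr' := hr
      rw [PhiG.mem_Rd] at hr
      refine ⟨r %ₘ M, ?_, ?_⟩
      · rw [PhiG.mem_Rd]
        refine ⟨degree_modByMonic_lt r hM, ?_⟩
        refine cop_congr ?_ (IsCoprime.mul_right_iff.1 hr.2).2
        rw [← dvd_neg]
        have e : -(r %ₘ M - r) = r - r %ₘ M := by ring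
        rw [e]
        exact mod_dvd r M
      · rw [mem_filter]
        exact ⟨hr', mod_dvd r M⟩
    · rintro ⟨c, _, hc⟩
      exact (mem_filter.1 hc).1
  conv_lhs => rw [h]
  rw [card_biUnion, sum_congr rfl (fun c hc => card_over hA hM hAM (PhiG.mem_Rd.1 hc).2), sum_const,
    smul_eq_mul, mul_comm]
  intro c hc c' hc' hne
  rw [Function.onFun, disjoint_left]
  intro r hr hr'
  apply hne
  rw [mem_filter] at hr hr'
  rw [mem_coe, PhiG.mem_Rd] at hc hc'
  have h3 : M ∣ c - c' := by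
    have := dvd_sub hr'.2 hr.2
    have e : r - c' - (r - c) = c - c' := by ring
    rwa [e] at this
  have h4 : (c - c').degree < M.degree := lt_of_le_of_lt (degree_sub_le _ _) (max_lt hc.1 hc'.1)
  exact sub_eq_zero.1 (eq_zero_of_dvd_of_degree_lt h3 h4)

theorem phi_pos {M : K[X]} (hM : M.Monic) : 0 < phiQ M := by
  rw [← PhiG.card_Rd]
  apply card_pos.2
  by_cases h1 : M = 1
  · refine ⟨0, ?_⟩
    rw [PhiG.mem_Rd, h1]
    exact ⟨by simp, isCoprime_one_right⟩
  · refine ⟨1, ?_⟩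
    rw [PhiG.mem_Rd]
    refine ⟨?_, isCoprime_one_left⟩
    rw [degree_one]
    have h2 : 0 < M.natDegree := by
      rcases Nat.eq_zero_or_pos M.natDegree with h | h
      · exact absurd (hM.natDegree_eq_zero.1 h) h1
      · exact h
    exact natDegree_pos_iff_degree_pos.1 h2

/-- the singular product without the divisors of `M` -/
noncomputable def spM (K : Type) [Field K] [Fintype K] (a b : K[X]) {k : ℕ} (t : Fin k → ℕ) (M : K[X])
    (m : ℕ) : ℝ :=
  ∏ P ∈ (PU K m).filter (fun P => ¬ P ∣ M),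
    (1 - (nu a b t P : ℝ) / ((Fintype.card K : ℝ) ^ P.natDegree - 1))

theorem vg_eqM {a b M : K[X]} (ha : a ≠ 0) (hab : IsCoprime a b) {k : ℕ} (t : Fin k → ℕ)
    (ht : ∀ i, 1 ≤ t i) (m : ℕ) : vg (mo a * M) m (sl a t) (co a b t) = spM K a b t M m := by
  unfold vg spM
  have h1 : ∀ P : K[X], nug (sl a t) (co a b t) P = (nu a b t P : ℝ) := by
    intro P
    unfold nug nu
    congr 1
    congr 1
    ext r
    simp only [Set.mem_setOf_eq, dvd_form ha]
  rw [prod_filter, prod_filter]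
  apply prod_congr rfl
  intro P hP
  rw [mem_PU] at hP
  by_cases hPM : P ∣ M
  · rw [if_neg (not_not.2 (hPM.mul_left _)), if_neg (not_not.2 hPM)]
  rw [if_pos hPM]
  by_cases hPa : P ∣ mo a
  · rw [if_neg (not_not.2 (hPa.mul_right _))]
    rw [mo_dvd ha] at hPa
    have h2 : nu a b t P = 0 := by
      unfold nu
      have e : {r : K[X] | r.degree < P.degree ∧ r ≠ 0 ∧ ∃ i, P ∣ (T a b)^[t i] r} = ∅ := by
        rw [Set.eq_empty_iff_forall_notMem]
        rintro r ⟨-, -, i, hi⟩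
        exact not_dvd_iter hab hP.2.1 hPa r (t i) (ht i) hi
      rw [e, Set.ncard_empty]
    rw [h2, Nat.cast_zero, zero_div, sub_zero]
  · have h3 : ¬ P ∣ mo a * M := fun h => by
      rcases hP.2.1.prime.dvd_or_dvd h with h | h
      · exact hPa h
      · exact hPM h
    rw [if_pos h3, h1]

/-- **The number of the sifted primes of an exact pattern.** -/
theorem exactP_count [CharP K 2] {a b : K[X]} (ha : 1 ≤ a.natDegree) (hb : b ≠ 0) (hab : IsCoprime a b)
    {k : ℕ} (t : Fin k → ℕ) (ht : ∀ i, 1 ≤ t i) {L : ℕ} (hL1 : 1 ≤ L) (hLt : ∀ i, t i ≤ L)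
    (C : Finset ℕ) (hLC : ∀ i ∈ C, i ≤ L) (h0 : 0 ∉ C) (hCt : ∀ i, t i ∉ C) (P : ℕ → K[X])
    (hP : ∀ i ∈ C, (P i).Monic ∧ Irreducible (P i)) (hinj : ∀ i ∈ C, ∀ j ∈ C, P i = P j → i = j)
    (hd : ∀ i ∈ C, b.natDegree + L * a.natDegree < (P i).natDegree) (ε : ℝ) (hε : 0 < ε) :
    ∃ κ : ℝ, 0 < κ ∧ ∃ n₀ : ℕ, ∀ n : ℕ, n₀ ≤ n → ∀ m : ℕ, 1 ≤ m → (m : ℝ) ≤ κ * n →
      |(((Mn K n).filter (fun p => Irreducible p ∧ (∀ i ∈ C, P i ∣ (T a b)^[i] p) ∧
          ∀ i, ∀ Q : K[X], Q.Monic → Irreducible Q → Q ∣ (T a b)^[t i] p → m < Q.natDegree)).card : ℝ) -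
        spM K a b t (∏ i ∈ C, P i) m *
          ((Fintype.card K : ℝ) ^ n / (n * (phiQ (∏ i ∈ C, P i) : ℝ)))| ≤
        ε * (spM K a b t (∏ i ∈ C, P i) m *
          ((Fintype.card K : ℝ) ^ n / (n * (phiQ (∏ i ∈ C, P i) : ℝ)))) := by
  have ha0 : a ≠ 0 := by
    rintro rfl
    rw [natDegree_zero] at ha
    omega
  obtain ⟨hM, hMQ, c, hc, hcls⟩ := cls_prod ha hb P C hP hinj hL1 hd
  obtain ⟨M, hMdef⟩ : ∃ M, M = ∏ i ∈ C, P i := ⟨_, rfl⟩
  rw [← hMdef] at hM hMQ hc hcls ⊢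
  have hA : (mo a).Monic := mo_monic ha0
  -- coprimality
  have hcM : IsCoprime c M := by
    have h1 : ∀ i ∈ C, P i ∣ (T a b)^[i] c := (hcls c).2 (by rw [sub_self]; exact dvd_zero M)
    rw [hMdef]
    refine IsCoprime.prod_right fun i hi => ?_
    refine IsCoprime.symm (((hP i hi).2.coprime_iff_not_dvd).2 fun h => ?_)
    exact one_time ha hb (hP i hi).2 (hd i hi) (hLC i hi) (Nat.zero_le L)
      (fun e => h0 (e ▸ hi)) c (h1 i hi) h
  have hAM : IsCoprime (mo a) M := by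
    rw [hMdef]
    refine IsCoprime.prod_right fun i hi => ?_
    refine IsCoprime.symm (((hP i hi).2.coprime_iff_not_dvd).2 fun h => ?_)
    rw [mo_dvd ha0] at h
    have h1 := natDegree_le_of_dvd h ha0
    have h2 := hd i hi
    have h3 : 1 * a.natDegree ≤ L * a.natDegree := Nat.mul_le_mul_right _ hL1
    omega
  have hQ : (mo a * M).Monic := hA.mul hM
  have hslo : Slo (mo a * M) (sl a t) := by
    intro i
    refine ⟨(mo_monic ha0).pow _, fun Q hQ hd => ?_⟩
    exact (hQ.prime.dvd_of_dvd_pow hd).mul_right _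
  obtain ⟨φA, hφA⟩ : ∃ φ : ℝ, φ = (phiQ (mo a) : ℝ) := ⟨_, rfl⟩
  obtain ⟨φM, hφM⟩ : ∃ φ : ℝ, φ = (phiQ M : ℝ) := ⟨_, rfl⟩
  have hφA0 : 0 < φA := by rw [hφA]; exact_mod_cast phi_pos hA
  have hφM0 : 0 < φM := by rw [hφM]; exact_mod_cast phi_pos hM
  have hφ : (phiQ (mo a * M) : ℝ) = φA * φM := by
    rw [phi_mul hA hM hAM, hφA, hφM]
    push_cast
    ring
  obtain ⟨κ, hκ, n₁, h⟩ := Pool.Agent.H985.CG.cntp Pool.Agent.H985.CG.s_cntg K k (mo a * M) (sl a t)
    (ε / (φA * φM)) hQ hslo (by positivity)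
  refine ⟨κ, hκ, max n₁ ((mo a * M).natDegree + 1), ?_⟩
  intro n hn m hm hmκ
  have hn1 : n₁ ≤ n := le_trans (le_max_left _ _) hn
  have hn2 : (mo a * M).natDegree < n := le_trans (le_max_right _ _) hn
  rw [← hφM]
  obtain ⟨S, hS⟩ : ∃ S : Finset K[X], S = (Mn K n).filter (fun p => Irreducible p ∧
      (∀ i ∈ C, P i ∣ (T a b)^[i] p) ∧
      ∀ i, ∀ Q : K[X], Q.Monic → Irreducible Q → Q ∣ (T a b)^[t i] p → m < Q.natDegree) := ⟨_, rfl⟩
  rw [← hS]
  obtain ⟨R, hR⟩ : ∃ R : Finset K[X], R = (PhiG.Rd (mo a * M)).filter (fun r => M ∣ r - c) := ⟨_, rfl⟩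
  have hRc : (R.card : ℝ) = φA := by rw [hR, card_over hA hM hAM hcM, hφA]
  have h1 : ∀ r ∈ R, |(((S.filter (fun p => mo a * M ∣ p - r)).card : ℝ)) -
      spM K a b t M m * ((Fintype.card K : ℝ) ^ n / (n * φM)) / φA| ≤
      ε * (spM K a b t M m * ((Fintype.card K : ℝ) ^ n / (n * φM))) / φA := by
    intro r hr
    rw [hR, mem_filter, PhiG.mem_Rd] at hr
    have h2 := h n hn1 m r (co a b t) hm hmκ hr.1.2
    rw [vg_eqM ha0 hab t ht, hφ] at h2
    have e : S.filter (fun p => mo a * M ∣ p - r) =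
        (Irn K n).filter (fun p => mo a * M ∣ p - r ∧ Sig (mo a * M) (sl a t) (co a b t) m p) := by
      rw [hS, filter_filter]
      ext p
      rw [mem_filter, mem_filter, mem_Mn, mem_Irn]
      constructor
      · rintro ⟨⟨p1, p2⟩, ⟨p3, p4, p5⟩, p6⟩
        refine ⟨⟨p1, p2, p3⟩, p6, fun i Q hQ1 hQi hd' _ => ?_⟩
        exact p5 i Q hQ1 hQi ((dvd_form ha0 b p Q t i).1 hd')
      · rintro ⟨⟨p1, p2, p3⟩, p6, p5⟩
        have p4 : ∀ i ∈ C, P i ∣ (T a b)^[i] p := by
          rw [hcls]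
          have e3 : p - c = (p - r) + (r - c) := by ring
          rw [e3]
          exact dvd_add ((dvd_mul_left M _).trans p6) hr.2
        refine ⟨⟨p1, p2⟩, ⟨p3, p4, fun i Q hQ1 hQi hd' => ?_⟩, p6⟩
        refine p5 i Q hQ1 hQi ((dvd_form ha0 b p Q t i).2 hd') fun h3 => ?_
        rcases hQi.prime.dvd_or_dvd h3 with h4 | h4
        · rw [mo_dvd ha0] at h4
          exact not_dvd_iter hab hQi h4 p (t i) (ht i) hd'
        · obtain ⟨j, hj, rfl⟩ := hMQ Q hQ1 hQi h4
          exact one_time ha hb hQi (hd j hj) (hLC j hj) (hLt i) (fun e => hCt i (e ▸ hj)) p (p4 j hj) hd'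
    rw [e]
    have e2 : spM K a b t M m * (Fintype.card K : ℝ) ^ n / (n * (φA * φM)) =
        spM K a b t M m * ((Fintype.card K : ℝ) ^ n / (n * φM)) / φA := by
      rw [mul_div_assoc, mul_div_assoc, div_div]
      congr 2
      ring
    have e3 : ε / (φA * φM) * (spM K a b t M m * (Fintype.card K : ℝ) ^ n / n) =
        ε * (spM K a b t M m * ((Fintype.card K : ℝ) ^ n / (n * φM))) / φA := by
      rcases Nat.eq_zero_or_pos n with hn0 | hn0
      · omega
      · have : (n : ℝ) ≠ 0 := by positivity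
        field_simp
    rw [e2, e3] at h2
    exact h2
  have hdec : (S.card : ℝ) = ∑ r ∈ R, ((S.filter (fun p => mo a * M ∣ p - r)).card : ℝ) := by
    have h3 : S.card = ∑ r ∈ R, (S.filter (fun p => mo a * M ∣ p - r)).card := by
      have h4 : S = R.biUnion (fun r => S.filter (fun p => mo a * M ∣ p - r)) := by
        ext p
        rw [mem_biUnion]
        constructor
        · intro hp
          have hp' := hp
          rw [hS, mem_filter, mem_Mn] at hp'
          have hpI : p ∈ Irn K n := mem_Irn.2 ⟨hp'.1.1, hp'.1.2, hp'.2.1⟩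
          have hcop := PhiG.cop hQ hn2 hpI
          have h5 := mod_dvd p (mo a * M)
          have h6 : mo a * M ∣ p %ₘ (mo a * M) - p := by
            rw [← dvd_neg]
            have e : -(p %ₘ (mo a * M) - p) = p - p %ₘ (mo a * M) := by ring
            rwa [e]
          refine ⟨p %ₘ (mo a * M), ?_, ?_⟩
          · rw [hR, mem_filter, PhiG.mem_Rd]
            refine ⟨⟨degree_modByMonic_lt p hQ, cop_congr h6 hcop⟩, ?_⟩
            have e : p %ₘ (mo a * M) - c = (p %ₘ (mo a * M) - p) + (p - c) := by ring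
            rw [e]
            exact dvd_add ((dvd_mul_left M _).trans h6) ((hcls p).1 hp'.2.2.1)
          · rw [mem_filter]
            exact ⟨hp, h5⟩
        · rintro ⟨r, _, hr⟩
          exact (mem_filter.1 hr).1
      conv_lhs => rw [h4]
      rw [card_biUnion]
      intro r hr r' hr' hne
      rw [Function.onFun, disjoint_left]
      intro p hp hp'
      apply hne
      rw [mem_filter] at hp hp'
      rw [mem_coe, hR, mem_filter, PhiG.mem_Rd] at hr hr'
      have h3 : mo a * M ∣ r - r' := by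
        have := dvd_sub hp'.2 hp.2
        have e : p - r' - (p - r) = r - r' := by ring
        rwa [e] at this
      have h4 : (r - r').degree < (mo a * M).degree :=
        lt_of_le_of_lt (degree_sub_le _ _) (max_lt hr.1.1 hr'.1.1)
      exact sub_eq_zero.1 (eq_zero_of_dvd_of_degree_lt h3 h4)
    exact_mod_cast h3
  obtain ⟨Y, hY⟩ : ∃ Y : ℝ, Y = spM K a b t M m * ((Fintype.card K : ℝ) ^ n / (n * φM)) := ⟨_, rfl⟩
  rw [← hY] at h1 ⊢
  have e1 : Y = ∑ r ∈ R, Y / φA := by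
    rw [sum_const, nsmul_eq_mul, hRc]
    field_simp
  have e2 : ε * Y = ∑ r ∈ R, ε * Y / φA := by
    rw [sum_const, nsmul_eq_mul, hRc]
    field_simp
  rw [hdec, e2]
  calc |∑ r ∈ R, (((S.filter (fun p => mo a * M ∣ p - r)).card : ℝ)) - Y|
      = |∑ r ∈ R, ((((S.filter (fun p => mo a * M ∣ p - r)).card : ℝ)) - Y / φA)| := by
        rw [sum_sub_distrib, ← e1]
    _ ≤ _ := le_trans (abs_sum_le_sum_abs _ _) (sum_le_sum h1)

end Pool.Agent.H77.CC
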