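import Pool.Agent.H77.CC.Ex
import Pool.Agent.H985.CG.Adm

/-!
# Chains `p, T(p), T(T(p)), …` with `p` prime, prescribed divisors at some times and almost primes of
prescribed parity at others (helper77, with helper985)
-/

set_option autoImplicit false
set_option linter.all false

namespace Pool.Agent.H77.CC

open Polynomial Finset UniqueFactorizationMonoid
open scoped Classical
open Pool.Agent.H694.Typ (Mn Irn PU mem_Mn mem_Irn mem_PU)
open Pool.Agent.H985.CG
open Pool.Agent.H985.Chow (mob)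

variable {K : Type} [Field K]

theorem deg_cls {a b : K[X]} (ha : 1 ≤ a.natDegree) {M c : K[X]} (hc : c.degree < M.degree) {n : ℕ}
    (hn : M.natDegree < n) (hb : b.natDegree < n) (t : ℕ) :
    ((T a b)^[t] c).natDegree < n + t * a.natDegree := by
  have hcd : c.natDegree ≤ M.natDegree := natDegree_le_natDegree hc.le
  rw [iter]
  refine lt_of_le_of_lt (natDegree_add_le _ _) (max_lt ?_ ?_)
  · refine lt_of_le_of_lt natDegree_mul_le ?_
    rw [natDegree_pow]
    omega
  · refine lt_of_le_of_lt natDegree_mul_le ?_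
    rcases Nat.eq_zero_or_pos t with h | h
    · subst h
      simp
      omega
    · obtain ⟨s, rfl⟩ := Nat.exists_eq_add_of_le' h
      rw [(geom_deg ha s).2, Nat.add_mul]
      omega

theorem form_deg' {a M : K[X]} (ha : a ≠ 0) (hM : M ≠ 0) (t : ℕ) :
    (a ^ t * M).natDegree = t * a.natDegree + M.natDegree := by
  rw [natDegree_mul (pow_ne_zero _ ha) hM, natDegree_pow]

theorem nonprop {a b M c : K[X]} (ha : 1 ≤ a.natDegree) (hb : b ≠ 0) (hM : M ≠ 0) {s t : ℕ} (hst : s ≠ t) :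
    a ^ s * M * (T a b)^[t] c ≠ a ^ t * M * (T a b)^[s] c := by
  have ha0 : a ≠ 0 := by
    rintro rfl
    rw [natDegree_zero] at ha
    omega
  intro h
  rw [iter, iter] at h
  have h1 : a ^ s * ∑ j ∈ range t, a ^ j = a ^ t * ∑ j ∈ range s, a ^ j := by
    apply mul_left_cancel₀ (mul_ne_zero hM hb)
    linear_combination h
  have h2 : a ^ s * (a ^ t - 1) = a ^ t * (a ^ s - 1) := by
    rw [← mul_geom_sum a t, ← mul_geom_sum a s]
    linear_combination (a - 1) * h1
  have h3 : a ^ s = a ^ t := by linear_combination -h2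
  have h4 := congrArg natDegree h3
  rw [natDegree_pow, natDegree_pow] at h4
  exact hst (Nat.eq_of_mul_eq_mul_right ha h4)

section fin

variable [Fintype K]

/-- the map `g ↦ M g + c` from the monic polynomials of degree `n - deg M` -/
theorem map_mem {M c : K[X]} (hM : M.Monic) (hc : c.degree < M.degree) {n : ℕ} (hn : M.natDegree < n)
    {g : K[X]} (hg : g ∈ Mn K (n - M.natDegree)) : M * g + c ∈ Mn K n := by
  rw [mem_Mn] at hg ⊢
  have h1 : (M * g).Monic := hM.mul hg.1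
  have h2 : (M * g).natDegree = n := by
    rw [hM.natDegree_mul hg.1, hg.2]
    omega
  have h3 : c.degree < (M * g).degree := by
    refine lt_of_lt_of_le hc ?_
    exact degree_le_mul_left _ hg.1.ne_zero
  exact ⟨h1.add_of_left h3, by rw [natDegree_add_eq_left_of_degree_lt h3, h2]⟩

theorem map_surj {M c : K[X]} (hM : M.Monic) (hc : c.degree < M.degree) {n : ℕ} (hn : M.natDegree < n)
    {p : K[X]} (hp : p ∈ Mn K n) (hd : M ∣ p - c) : ∃ g ∈ Mn K (n - M.natDegree), M * g + c = p := by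
  obtain ⟨g, hg⟩ := hd
  have e : M * g + c = p := by linear_combination -hg
  refine ⟨g, ?_, e⟩
  rw [mem_Mn] at hp ⊢
  have hp0 : p.degree = (n : WithBot ℕ) := by
    rw [degree_eq_natDegree hp.1.ne_zero, hp.2]
  have hcp : c.degree < p.degree := by
    refine lt_of_lt_of_le hc ?_
    rw [hp0, degree_eq_natDegree hM.ne_zero]
    exact_mod_cast hn.le
  have h1 : (M * g).Monic := by
    rw [← hg]
    exact hp.1.sub_of_left hcp
  have h2 : (M * g).natDegree = n := by
    rw [← hg, natDegree_sub_eq_left_of_natDegree_lt, hp.2]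
    rw [hp.2]
    exact lt_of_le_of_lt (natDegree_le_natDegree hc.le) hn
  have h3 : g.Monic := hM.of_mul_monic_left h1
  refine ⟨h3, ?_⟩
  rw [hM.natDegree_mul h3] at h2
  omega

theorem map_inj {M c : K[X]} (hM : M.Monic) {g h : K[X]} (e : M * g + c = M * h + c) : g = h := by
  have := add_right_cancel e
  exact mul_left_cancel₀ hM.ne_zero this

/-- the lower bound is not changed much by the shift of the degree -/
theorem shift_bound {q c : ℝ} (hq : 1 ≤ q) (hc : 0 ≤ c) {d n k : ℕ} (hn : d < n) :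
    c / q ^ d * q ^ n / (n : ℝ) ^ k ≤ c * q ^ (n - d) / ((n - d : ℕ) : ℝ) ^ k := by
  have hq0 : 0 < q := lt_of_lt_of_le one_pos hq
  have e : c / q ^ d * q ^ n = c * q ^ (n - d) := by
    have : q ^ n = q ^ (n - d) * q ^ d := by
      rw [← pow_add]
      congr 1
      omega
    rw [this]
    field_simp
  rw [e]
  apply div_le_div_of_nonneg_left (by positivity)
  · have : (0 : ℝ) < ((n - d : ℕ) : ℝ) := by exact_mod_cast Nat.sub_pos_of_lt hn
    positivity
  · apply pow_le_pow_left₀ (Nat.cast_nonneg _)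
    exact_mod_cast Nat.sub_le n d

/-- **Exact patterns, first term prime: lower bound.** -/
theorem exact_low [CharP K 2] {a b : K[X]} (ha : 1 ≤ a.natDegree) (hb : b ≠ 0) {k : ℕ}
    (t : Fin k → ℕ) (ht : ∀ i, 1 ≤ t i) {L : ℕ} (hL1 : 1 ≤ L) (hLt : ∀ i, t i ≤ L) (C : Finset ℕ)
    (hLC : ∀ i ∈ C, i ≤ L) (h0 : 0 ∉ C) (hCt : ∀ i, t i ∉ C) (P : ℕ → K[X])
    (hP : ∀ i ∈ C, (P i).Monic ∧ Irreducible (P i)) (hinj : ∀ i ∈ C, ∀ j ∈ C, P i = P j → i = j)
    (hd : ∀ i ∈ C, b.natDegree + L * a.natDegree < (P i).natDegree)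
    (hadm : ∀ Q : K[X], Irreducible Q → ∃ x : K[X], ¬ Q ∣ x ∧ ∀ i, ¬ Q ∣ (T a b)^[t i] x) :
    ∃ (r : ℕ) (c : ℝ), 0 < c ∧ ∃ N : ℕ, ∀ n : ℕ, N ≤ n → ∀ (j : Fin k) (σ : ℤ), σ = 1 ∨ σ = -1 →
      c * (Fintype.card K : ℝ) ^ n / (n : ℝ) ^ (k + 1) ≤
        (((Mn K n).filter (fun p => Irreducible p ∧ (∀ i ∈ C, P i ∣ (T a b)^[i] p) ∧
          (∀ i, Squarefree ((T a b)^[t i] p) ∧ Multiset.card (factors ((T a b)^[t i] p)) ≤ r ∧
            ∀ Q : K[X], Irreducible Q → Q ∣ (T a b)^[t i] p → n ≤ (r + 1) * Q.natDegree) ∧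
              mob ((T a b)^[t j] p) = σ)).card : ℝ) := by
  obtain ⟨M, c, hM, hc, hcls, hMQ⟩ := cls_data ha hb P C hP hinj hLC hL1 hd
  have ha0 : a ≠ 0 := by
    rintro rfl
    rw [natDegree_zero] at ha
    omega
  have hM0 : M ≠ 0 := hM.ne_zero
  obtain ⟨r, δ, hδ, N, H⟩ := dick_few s_cheng s_cntg vpg K (k := k) M (fun i => a ^ t i * M) hM0
    (fun i => mul_ne_zero (pow_ne_zero _ ha0) hM0)
  have hq : (1 : ℝ) ≤ (Fintype.card K : ℝ) := by
    exact_mod_cast Fintype.card_pos (α := K)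
  have hq0 : (0 : ℝ) < (Fintype.card K : ℝ) := lt_of_lt_of_le one_pos hq
  refine ⟨2 * r + 1, δ / (Fintype.card K : ℝ) ^ M.natDegree, by positivity,
    N + 2 * M.natDegree + b.natDegree + 1, fun n hn j σ hσ => ?_⟩
  have hn1 : M.natDegree < n := by omega
  have hn2 : b.natDegree < n := by omega
  have hn3 : N ≤ n - M.natDegree := by omega
  refine (shift_bound hq hδ.le hn1).trans ?_
  refine (H (n - M.natDegree) hn3 c (fun i => (T a b)^[t i] c) ?_ ?_ ?_ ?_ j σ hσ).trans ?_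
  · have := natDegree_le_natDegree hc.le
    omega
  · intro i
    have h1 := deg_cls ha hc hn1 hn2 (t i)
    show ((T a b)^[t i] c).natDegree < n - M.natDegree + (a ^ t i * M).natDegree
    rw [form_deg' ha0 hM0]
    omega
  · intro i
    have h1 := nonprop (c := c) ha hb hM0 (s := 0) (t := t i) (by have := ht i; omega)
    rw [pow_zero, one_mul] at h1
    exact h1
  · intro Q hQ hQi
    have hA : ∀ s ∈ {s : ℕ | s = 0 ∨ ∃ i, s = t i}, s ≤ L ∧ s ∉ C := by
      intro s hs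
      rcases hs with hs | ⟨i, hs⟩
      · rw [hs]
        exact ⟨Nat.zero_le _, h0⟩
      · rw [hs]
        exact ⟨hLt i, hCt i⟩
    have hA2 : ∀ Q : K[X], Irreducible Q → ∃ x : K[X], ∀ s ∈ {s : ℕ | s = 0 ∨ ∃ i, s = t i},
        ¬ Q ∣ (T a b)^[s] x := by
      intro Q hQ
      obtain ⟨x, hx0, hx⟩ := hadm Q hQ
      refine ⟨x, fun s hs => ?_⟩
      rcases hs with hs | ⟨i, hs⟩
      · rw [hs]
        exact hx0
      · rw [hs]
        exact hx i
    obtain ⟨x, hx⟩ := adm_cls ha hb hP hLC hd hcls hMQ {s | s = 0 ∨ ∃ i, s = t i} hA hA2 Q hQ hQi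
    refine ⟨x, ?_, fun i => hx (t i) (Or.inr ⟨i, rfl⟩)⟩
    have h1 := hx 0 (Or.inl rfl)
    rw [pow_zero, one_mul] at h1
    exact h1
  · norm_cast
    refine card_le_card_of_injOn (fun g => M * g + c) ?_ ?_
    · intro g hg
      rw [mem_coe, mem_filter] at hg
      obtain ⟨hg0, hg1, hg2, hg3⟩ := hg
      show M * g + c ∈ _
      rw [mem_coe, mem_filter]
      refine ⟨map_mem hM hc hn1 hg0, hg1, ?_, fun i => ?_, ?_⟩
      · rw [hcls, add_sub_cancel_right]
        exact dvd_mul_right _ _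
      · rw [iter_lin]
        obtain ⟨e1, e2, e3⟩ := hg2 i
        refine ⟨e1, by omega, fun Q hQ hQd => ?_⟩
        have h4 := e3 Q hQ hQd
        have h5 : n ≤ 2 * (n - M.natDegree) := by omega
        calc n ≤ 2 * (n - M.natDegree) := h5
          _ ≤ 2 * ((r + 1) * Q.natDegree) := Nat.mul_le_mul_left _ h4
          _ = (2 * r + 1 + 1) * Q.natDegree := by ring
      · rw [iter_lin]
        exact hg3
    · intro g _ h _ e
      exact map_inj hM e

/-- **Exact patterns, first term prime: cancellation of `μ`.** -/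
theorem exact_sum [CharP K 2] {a b : K[X]} (ha : 1 ≤ a.natDegree) (hb : b ≠ 0) {k : ℕ}
    (t : Fin k → ℕ) (ht : ∀ i, 1 ≤ t i) {L : ℕ} (hL1 : 1 ≤ L) (C : Finset ℕ)
    (hLC : ∀ i ∈ C, i ≤ L) (P : ℕ → K[X])
    (hP : ∀ i ∈ C, (P i).Monic ∧ Irreducible (P i)) (hinj : ∀ i ∈ C, ∀ j ∈ C, P i = P j → i = j)
    (hd : ∀ i ∈ C, b.natDegree + L * a.natDegree < (P i).natDegree) (ε : ℝ) (hε : 0 < ε) :
    ∃ κ : ℝ, 0 < κ ∧ ∃ m₀ n₀ : ℕ, ∀ n : ℕ, n₀ ≤ n → ∀ m : ℕ, m₀ ≤ m → (m : ℝ) ≤ κ * n → ∀ j : Fin k,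
      |∑ p ∈ (Mn K n).filter (fun p => Irreducible p ∧ (∀ i ∈ C, P i ∣ (T a b)^[i] p) ∧
          ∀ i, ∀ Q : K[X], Q.Monic → Irreducible Q → Q ∣ (T a b)^[t i] p → m < Q.natDegree),
        (mob ((T a b)^[t j] p) : ℝ)| ≤ ε * ((Mn K n).filter (fun p => Irreducible p ∧
          (∀ i ∈ C, P i ∣ (T a b)^[i] p) ∧
          ∀ i, ∀ Q : K[X], Q.Monic → Irreducible Q → Q ∣ (T a b)^[t i] p → m < Q.natDegree)).card := by
  obtain ⟨M, c, hM, hc, hcls, hMQ⟩ := cls_data ha hb P C hP hinj hLC hL1 hd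
  have ha0 : a ≠ 0 := by
    rintro rfl
    rw [natDegree_zero] at ha
    omega
  have hM0 : M ≠ 0 := hM.ne_zero
  obtain ⟨κ, hκ, m₀, N, H⟩ := dick_sum s_cheng s_cntg K (k := k) M (fun i => a ^ t i * M) hM0
    (fun i => mul_ne_zero (pow_ne_zero _ ha0) hM0) ε hε
  refine ⟨κ / 2, by positivity, m₀, N + 2 * M.natDegree + b.natDegree + 1, fun n hn m hm hmκ j => ?_⟩
  have hn1 : M.natDegree < n := by omega
  have hn2 : b.natDegree < n := by omega
  have hn3 : N ≤ n - M.natDegree := by omega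
  have hmκ' : (m : ℝ) ≤ κ * ((n - M.natDegree : ℕ) : ℝ) := by
    have h1 : (n : ℝ) ≤ 2 * ((n - M.natDegree : ℕ) : ℝ) := by
      have : n ≤ 2 * (n - M.natDegree) := by omega
      exact_mod_cast this
    calc (m : ℝ) ≤ κ / 2 * n := hmκ
      _ ≤ κ / 2 * (2 * ((n - M.natDegree : ℕ) : ℝ)) := mul_le_mul_of_nonneg_left h1 (by positivity)
      _ = κ * ((n - M.natDegree : ℕ) : ℝ) := by ring
  have key := H (n - M.natDegree) hn3 m c (fun i => (T a b)^[t i] c) hm hmκ' ?_ ?_ ?_ j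
  · have hS : ((Mn K n).filter (fun p => Irreducible p ∧ (∀ i ∈ C, P i ∣ (T a b)^[i] p) ∧
          ∀ i, ∀ Q : K[X], Q.Monic → Irreducible Q → Q ∣ (T a b)^[t i] p → m < Q.natDegree)) =
        (Tf K M c (fun i => a ^ t i * M) (fun i => (T a b)^[t i] c) (n - M.natDegree) m).image
          (fun g => M * g + c) := by
      ext p
      rw [mem_filter, mem_image]
      constructor
      · rintro ⟨h1, h2, h3, h4⟩
        obtain ⟨g, hg, e⟩ := map_surj hM hc hn1 h1 ((hcls p).1 h3)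
        refine ⟨g, ?_, e⟩
        rw [mem_Tf]
        rw [mem_Mn] at hg
        refine ⟨hg, by rw [e]; exact h2, fun i Q hQ hQi hQd => ?_⟩
        refine h4 i Q hQ hQi ?_
        rw [← e, iter_lin]
        exact hQd
      · rintro ⟨g, hg, rfl⟩
        rw [mem_Tf] at hg
        refine ⟨map_mem hM hc hn1 (mem_Mn.2 hg.1), hg.2.1, ?_, fun i Q hQ hQi hQd => ?_⟩
        · rw [hcls, add_sub_cancel_right]
          exact dvd_mul_right _ _
        · rw [iter_lin] at hQd
          exact hg.2.2 i Q hQ hQi hQd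
    rw [hS, sum_image (fun g _ h _ e => map_inj hM e),
      card_image_of_injOn (fun g _ h _ e => map_inj hM e)]
    refine (le_of_eq ?_).trans key
    congr 1
    refine sum_congr rfl fun g _ => ?_
    rw [iter_lin]
  · have := natDegree_le_natDegree hc.le
    omega
  · intro i
    have h1 := deg_cls ha hc hn1 hn2 (t i)
    show ((T a b)^[t i] c).natDegree < n - M.natDegree + (a ^ t i * M).natDegree
    rw [form_deg' ha0 hM0]
    omega
  · intro i
    have h1 := nonprop (c := c) ha hb hM0 (s := 0) (t := t i) (by have := ht i; omega)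
    rw [pow_zero, one_mul] at h1
    exact h1

end fin

end Pool.Agent.H77.CC
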