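import Pool.Agent.H77.CC.ExP
import Pool.Agent.H985.Par.LinFew

/-!
# Chains `f, T(f), T(T(f)), …` of almost primes with prescribed parities at all the given times and
prescribed divisors at some others (helper77, with helper985)
-/

set_option autoImplicit false
set_option linter.all false

namespace Pool.Agent.H77.CC

open Polynomial Finset UniqueFactorizationMonoid
open scoped Classical
open Pool.Agent.H694.Typ (Mn Irn PU mem_Mn mem_Irn mem_PU)
open Pool.Agent.H985.Chow (mob)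
open Pool.Agent.H985.Par (Lfs Sft lin_few lin_patt)

variable {K : Type} [Field K] [Fintype K]

/-- **Exact patterns, all parities: lower bound.** -/
theorem exactQ_low [CharP K 2] {a b : K[X]} (ha : 1 ≤ a.natDegree) (hb : b ≠ 0) {k : ℕ}
    (t : Fin k → ℕ) (ht : Function.Injective t) {L : ℕ} (hL1 : 1 ≤ L) (hLt : ∀ i, t i ≤ L)
    (C : Finset ℕ) (hLC : ∀ i ∈ C, i ≤ L) (hCt : ∀ i, t i ∉ C) (P : ℕ → K[X])
    (hP : ∀ i ∈ C, (P i).Monic ∧ Irreducible (P i)) (hinj : ∀ i ∈ C, ∀ j ∈ C, P i = P j → i = j)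
    (hd : ∀ i ∈ C, b.natDegree + L * a.natDegree < (P i).natDegree)
    (hadm : ∀ Q : K[X], Irreducible Q → ∃ x : K[X], ∀ i, ¬ Q ∣ (T a b)^[t i] x) :
    ∃ (r : ℕ) (c : ℝ), 0 < c ∧ ∃ N : ℕ, ∀ n : ℕ, N ≤ n → ∀ σ : Fin k → ℤ,
      (∀ i, σ i = 1 ∨ σ i = -1) →
      c * (Fintype.card K : ℝ) ^ n / (n : ℝ) ^ k ≤
        (((Mn K n).filter (fun f => (∀ i ∈ C, P i ∣ (T a b)^[i] f) ∧
          ∀ i, mob ((T a b)^[t i] f) = σ i ∧ Multiset.card (factors ((T a b)^[t i] f)) ≤ r ∧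
            ∀ Q : K[X], Irreducible Q → Q ∣ (T a b)^[t i] f → n ≤ (r + 1) * Q.natDegree)).card : ℝ) := by
  obtain ⟨M, c, hM, hc, hcls, hMQ⟩ := cls_data ha hb P C hP hinj hLC hL1 hd
  have ha0 : a ≠ 0 := by
    rintro rfl
    rw [natDegree_zero] at ha
    omega
  have hM0 : M ≠ 0 := hM.ne_zero
  obtain ⟨r, δ, hδ, N, H⟩ := lin_few K (k := k) (fun i => a ^ t i * M)
    (fun i => mul_ne_zero (pow_ne_zero _ ha0) hM0)
  have hq : (1 : ℝ) ≤ (Fintype.card K : ℝ) := by
    exact_mod_cast Fintype.card_pos (α := K)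
  have hq0 : (0 : ℝ) < (Fintype.card K : ℝ) := lt_of_lt_of_le one_pos hq
  refine ⟨2 * r + 1, δ / (Fintype.card K : ℝ) ^ M.natDegree, by positivity,
    N + 2 * M.natDegree + b.natDegree + 1, fun n hn σ hσ => ?_⟩
  have hn1 : M.natDegree < n := by omega
  have hn2 : b.natDegree < n := by omega
  have hn3 : N ≤ n - M.natDegree := by omega
  refine (shift_bound hq hδ.le hn1).trans ?_
  refine (H (n - M.natDegree) hn3 (fun i => (T a b)^[t i] c) ?_ ?_ ?_ σ hσ).trans ?_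
  · intro i
    have h1 := deg_cls ha hc hn1 hn2 (t i)
    show ((T a b)^[t i] c).natDegree < n - M.natDegree + (a ^ t i * M).natDegree
    rw [form_deg' ha0 hM0]
    omega
  · intro i j hij
    exact nonprop (c := c) ha hb hM0 (fun h => hij (ht h))
  · intro Q hQ hQi
    have hA : ∀ s ∈ Set.range t, s ≤ L ∧ s ∉ C := by
      rintro s ⟨i, rfl⟩
      exact ⟨hLt i, hCt i⟩
    have hA2 : ∀ Q : K[X], Irreducible Q → ∃ x : K[X], ∀ s ∈ Set.range t, ¬ Q ∣ (T a b)^[s] x := by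
      intro Q hQ
      obtain ⟨x, hx⟩ := hadm Q hQ
      refine ⟨x, ?_⟩
      rintro s ⟨i, rfl⟩
      exact hx i
    obtain ⟨x, hx⟩ := adm_cls ha hb hP hLC hd hcls hMQ (Set.range t) hA hA2 Q hQ hQi
    exact ⟨x, fun i => hx (t i) ⟨i, rfl⟩⟩
  · norm_cast
    refine card_le_card_of_injOn (fun g => M * g + c) ?_ ?_
    · intro g hg
      rw [mem_coe, mem_filter] at hg
      obtain ⟨hg0, hg2⟩ := hg
      show M * g + c ∈ _
      rw [mem_coe, mem_filter]
      refine ⟨map_mem hM hc hn1 hg0, ?_, fun i => ?_⟩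
      · rw [hcls, add_sub_cancel_right]
        exact dvd_mul_right _ _
      · rw [iter_lin]
        obtain ⟨e1, e2, e3⟩ := hg2 i
        refine ⟨e1, by omega, fun Q hQ hQd => ?_⟩
        have h4 := e3 Q hQ hQd
        have h5 : n ≤ 2 * (n - M.natDegree) := by omega
        calc n ≤ 2 * (n - M.natDegree) := h5
          _ ≤ 2 * ((r + 1) * Q.natDegree) := Nat.mul_le_mul_left _ h4
          _ = (2 * r + 1 + 1) * Q.natDegree := by ring
    · intro g _ h _ e
      exact map_inj hM e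

/-- **Exact patterns: the share of every pattern of parities.** -/
theorem exactQ_patt [CharP K 2] {a b : K[X]} (ha : 1 ≤ a.natDegree) (hb : b ≠ 0) {k : ℕ}
    (t : Fin k → ℕ) (ht : Function.Injective t) {L : ℕ} (hL1 : 1 ≤ L) (C : Finset ℕ)
    (hLC : ∀ i ∈ C, i ≤ L) (P : ℕ → K[X])
    (hP : ∀ i ∈ C, (P i).Monic ∧ Irreducible (P i)) (hinj : ∀ i ∈ C, ∀ j ∈ C, P i = P j → i = j)
    (hd : ∀ i ∈ C, b.natDegree + L * a.natDegree < (P i).natDegree) (ε : ℝ) (hε : 0 < ε) :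
    ∃ κ : ℝ, 0 < κ ∧ ∃ m₀ n₀ : ℕ, ∀ n : ℕ, n₀ ≤ n → ∀ m : ℕ, m₀ ≤ m → (m : ℝ) ≤ κ * n →
      ∀ σ : Fin k → ℤ, (∀ i, σ i = 1 ∨ σ i = -1) →
      |(((Mn K n).filter (fun f => ((∀ i ∈ C, P i ∣ (T a b)^[i] f) ∧
          ∀ i, Sft m ((T a b)^[t i] f)) ∧ ∀ i, mob ((T a b)^[t i] f) = σ i)).card : ℝ) -
        (((Mn K n).filter (fun f => (∀ i ∈ C, P i ∣ (T a b)^[i] f) ∧
          ∀ i, Sft m ((T a b)^[t i] f))).card : ℝ) / 2 ^ k| ≤
        ε * ((Mn K n).filter (fun f => (∀ i ∈ C, P i ∣ (T a b)^[i] f) ∧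
          ∀ i, Sft m ((T a b)^[t i] f))).card := by
  obtain ⟨M, c, hM, hc, hcls, hMQ⟩ := cls_data ha hb P C hP hinj hLC hL1 hd
  have ha0 : a ≠ 0 := by
    rintro rfl
    rw [natDegree_zero] at ha
    omega
  have hM0 : M ≠ 0 := hM.ne_zero
  obtain ⟨κ, hκ, m₀, N, H⟩ := lin_patt K (k := k) (fun i => a ^ t i * M)
    (fun i => mul_ne_zero (pow_ne_zero _ ha0) hM0) ε hε
  refine ⟨κ / 2, by positivity, m₀, N + 2 * M.natDegree + b.natDegree + 1, fun n hn m hm hmκ σ hσ => ?_⟩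
  have hn1 : M.natDegree < n := by omega
  have hn2 : b.natDegree < n := by omega
  have hn3 : N ≤ n - M.natDegree := by omega
  have hmκ' : (m : ℝ) ≤ κ * ((n - M.natDegree : ℕ) : ℝ) := by
    have h1 : (n : ℝ) ≤ 2 * ((n - M.natDegree : ℕ) : ℝ) := by
      have : n ≤ 2 * (n - M.natDegree) := by omega
      exact_mod_cast this
    calc (m : ℝ) ≤ κ / 2 * n := hmκ
      _ ≤ κ / 2 * (2 * ((n - M.natDegree : ℕ) : ℝ)) := mul_le_mul_of_nonneg_left h1 (by positivity)
      _ = κ * ((n - M.natDegree : ℕ) : ℝ) := by ring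
  have key := H (n - M.natDegree) hn3 m hm hmκ' (fun i => (T a b)^[t i] c) ?_ ?_ σ hσ
  · have hS : ((Mn K n).filter (fun f => (∀ i ∈ C, P i ∣ (T a b)^[i] f) ∧
          ∀ i, Sft m ((T a b)^[t i] f))) =
        (Lfs K (fun i => a ^ t i * M) (fun i => (T a b)^[t i] c) (n - M.natDegree) m).image
          (fun g => M * g + c) := by
      ext p
      rw [mem_filter, mem_image]
      constructor
      · rintro ⟨h1, h3, h4⟩
        obtain ⟨g, hg, e⟩ := map_surj hM hc hn1 h1 ((hcls p).1 h3)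
        refine ⟨g, ?_, e⟩
        unfold Lfs
        rw [mem_filter]
        refine ⟨hg, fun i Q hQ hQi hQd => ?_⟩
        refine h4 i Q hQ hQi ?_
        rw [← e, iter_lin]
        exact hQd
      · rintro ⟨g, hg, rfl⟩
        unfold Lfs at hg
        rw [mem_filter] at hg
        refine ⟨map_mem hM hc hn1 hg.1, ?_, fun i Q hQ hQi hQd => ?_⟩
        · rw [hcls, add_sub_cancel_right]
          exact dvd_mul_right _ _
        · rw [iter_lin] at hQd
          exact hg.2 i Q hQ hQi hQd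
    have hS2 : ((Mn K n).filter (fun f => ((∀ i ∈ C, P i ∣ (T a b)^[i] f) ∧
          ∀ i, Sft m ((T a b)^[t i] f)) ∧ ∀ i, mob ((T a b)^[t i] f) = σ i)) =
        ((Lfs K (fun i => a ^ t i * M) (fun i => (T a b)^[t i] c) (n - M.natDegree) m).filter
          (fun g => ∀ i, mob (a ^ t i * M * g + (T a b)^[t i] c) = σ i)).image
          (fun g => M * g + c) := by
      rw [← filter_filter, hS]
      ext p
      rw [mem_filter, mem_image, mem_image]
      constructor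
      · rintro ⟨⟨g, hg, rfl⟩, h⟩
        refine ⟨g, ?_, rfl⟩
        rw [mem_filter]
        refine ⟨hg, fun i => ?_⟩
        rw [← iter_lin]
        exact h i
      · rintro ⟨g, hg, rfl⟩
        rw [mem_filter] at hg
        refine ⟨⟨g, hg.1, rfl⟩, fun i => ?_⟩
        rw [iter_lin]
        exact hg.2 i
    rw [hS2, hS, card_image_of_injOn (fun g _ h _ e => map_inj hM e),
      card_image_of_injOn (fun g _ h _ e => map_inj hM e)]
    exact key
  · intro i
    have h1 := deg_cls ha hc hn1 hn2 (t i)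
    show ((T a b)^[t i] c).natDegree < n - M.natDegree + (a ^ t i * M).natDegree
    rw [form_deg' ha0 hM0]
    omega
  · intro i j hij
    exact nonprop (c := c) ha hb hM0 (fun h => hij (ht h))

end Pool.Agent.H77.CC
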