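import Pool.Agent.H77.CC.ExD

/-!
# Exact patterns of chains with a prime term at any place (helper77, with helper985)
-/

set_option autoImplicit false
set_option linter.all false

namespace Pool.Agent.H77.CC

open Polynomial Finset UniqueFactorizationMonoid
open scoped Classical
open Pool.Agent.H694.Typ (Mn Irn PU mem_Mn mem_Irn mem_PU)
open Pool.Agent.H985.CG
open Pool.Agent.H985.Chow (mob)

variable {K : Type} [Field K] [Fintype K]

/-- **Exact patterns, prime term at the time `s`: lower bound.** -/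
theorem exactS_low [CharP K 2] {a b : K[X]} (ha : 1 ≤ a.natDegree) (hb : b ≠ 0) {k : ℕ} (s : ℕ)
    (t : Fin k → ℕ) (ht : ∀ i, t i ≠ s) {L : ℕ} (hL1 : 1 ≤ L) (hLs : s ≤ L) (hLt : ∀ i, t i ≤ L)
    (C : Finset ℕ) (hLC : ∀ i ∈ C, i ≤ L) (hCs : s ∉ C) (hCt : ∀ i, t i ∉ C) (P : ℕ → K[X])
    (hP : ∀ i ∈ C, (P i).Monic ∧ Irreducible (P i)) (hinj : ∀ i ∈ C, ∀ j ∈ C, P i = P j → i = j)
    (hd : ∀ i ∈ C, b.natDegree + L * a.natDegree < (P i).natDegree)
    (hadm : ∀ Q : K[X], Irreducible Q → ∃ x : K[X], ¬ Q ∣ (T a b)^[s] x ∧ ∀ i, ¬ Q ∣ (T a b)^[t i] x) :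
    ∃ (r : ℕ) (c : ℝ), 0 < c ∧ ∃ N : ℕ, ∀ n : ℕ, N ≤ n → ∀ (j : Fin k) (σ : ℤ), σ = 1 ∨ σ = -1 →
      c * (Fintype.card K : ℝ) ^ n / (n : ℝ) ^ (k + 1) ≤
        (((Mn K n).filter (fun p => Irreducible ((T a b)^[s] p) ∧ (∀ i ∈ C, P i ∣ (T a b)^[i] p) ∧
          (∀ i, Squarefree ((T a b)^[t i] p) ∧ Multiset.card (factors ((T a b)^[t i] p)) ≤ r ∧
            ∀ Q : K[X], Irreducible Q → Q ∣ (T a b)^[t i] p → n ≤ (r + 1) * Q.natDegree) ∧
              mob ((T a b)^[t j] p) = σ)).card : ℝ) := by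
  obtain ⟨M, c, hM, hc, hcls, hMQ⟩ := cls_data ha hb P C hP hinj hLC hL1 hd
  have ha0 : a ≠ 0 := by
    rintro rfl
    rw [natDegree_zero] at ha
    omega
  have hM0 : M ≠ 0 := hM.ne_zero
  obtain ⟨r, δ, hδ, N, H⟩ := dick_few s_cheng s_cntg vpg K (k := k) (a ^ s * M)
    (fun i => a ^ t i * M) (mul_ne_zero (pow_ne_zero _ ha0) hM0)
    (fun i => mul_ne_zero (pow_ne_zero _ ha0) hM0)
  have hq : (1 : ℝ) ≤ (Fintype.card K : ℝ) := by
    exact_mod_cast Fintype.card_pos (α := K)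
  have hq0 : (0 : ℝ) < (Fintype.card K : ℝ) := lt_of_lt_of_le one_pos hq
  refine ⟨2 * r + 1, δ / (Fintype.card K : ℝ) ^ M.natDegree, by positivity,
    N + 2 * M.natDegree + b.natDegree + 1, fun n hn j σ hσ => ?_⟩
  have hn1 : M.natDegree < n := by omega
  have hn2 : b.natDegree < n := by omega
  have hn3 : N ≤ n - M.natDegree := by omega
  have hdeg : ∀ i : ℕ, ((T a b)^[i] c).natDegree < n - M.natDegree + (a ^ i * M).natDegree := by
    intro i
    have h1 := deg_cls ha hc hn1 hn2 i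
    rw [form_deg' ha0 hM0]
    omega
  refine (shift_bound hq hδ.le hn1).trans ?_
  refine (H (n - M.natDegree) hn3 ((T a b)^[s] c) (fun i => (T a b)^[t i] c) (hdeg s)
    (fun i => hdeg (t i)) (fun i => nonprop (c := c) ha hb hM0 (fun h => ht i h.symm)) ?_ j σ hσ).trans ?_
  · intro Q hQ hQi
    have hA : ∀ u ∈ {u : ℕ | u = s ∨ ∃ i, u = t i}, u ≤ L ∧ u ∉ C := by
      intro u hu
      rcases hu with hu | ⟨i, hu⟩
      · rw [hu]
        exact ⟨hLs, hCs⟩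
      · rw [hu]
        exact ⟨hLt i, hCt i⟩
    have hA2 : ∀ Q : K[X], Irreducible Q → ∃ x : K[X], ∀ u ∈ {u : ℕ | u = s ∨ ∃ i, u = t i},
        ¬ Q ∣ (T a b)^[u] x := by
      intro Q hQ
      obtain ⟨x, hx0, hx⟩ := hadm Q hQ
      refine ⟨x, fun u hu => ?_⟩
      rcases hu with hu | ⟨i, hu⟩
      · rw [hu]
        exact hx0
      · rw [hu]
        exact hx i
    obtain ⟨x, hx⟩ := adm_cls ha hb hP hLC hd hcls hMQ {u | u = s ∨ ∃ i, u = t i} hA hA2 Q hQ hQi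
    exact ⟨x, hx s (Or.inl rfl), fun i => hx (t i) (Or.inr ⟨i, rfl⟩)⟩
  · norm_cast
    refine card_le_card_of_injOn (fun g => M * g + c) ?_ ?_
    · intro g hg
      rw [mem_coe, mem_filter] at hg
      obtain ⟨hg0, hg1, hg2, hg3⟩ := hg
      show M * g + c ∈ _
      rw [mem_coe, mem_filter]
      refine ⟨map_mem hM hc hn1 hg0, by rw [iter_lin]; exact hg1, ?_, fun i => ?_, ?_⟩
      · rw [hcls, add_sub_cancel_right]
        exact dvd_mul_right _ _
      · rw [iter_lin]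
        obtain ⟨e1, e2, e3⟩ := hg2 i
        refine ⟨e1, by omega, fun Q hQ hQd => ?_⟩
        have h4 := e3 Q hQ hQd
        have h5 : n ≤ 2 * (n - M.natDegree) := by omega
        calc n ≤ 2 * (n - M.natDegree) := h5
          _ ≤ 2 * ((r + 1) * Q.natDegree) := Nat.mul_le_mul_left _ h4
          _ = (2 * r + 1 + 1) * Q.natDegree := by ring
      · rw [iter_lin]
        exact hg3
    · intro g _ h _ e
      exact map_inj hM e

/-- **Exact patterns, prime term at the time `s`: cancellation of `μ`.** -/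
theorem exactS_sum [CharP K 2] {a b : K[X]} (ha : 1 ≤ a.natDegree) (hb : b ≠ 0) {k : ℕ} (s : ℕ)
    (t : Fin k → ℕ) (ht : ∀ i, t i ≠ s) {L : ℕ} (hL1 : 1 ≤ L) (C : Finset ℕ)
    (hLC : ∀ i ∈ C, i ≤ L) (P : ℕ → K[X])
    (hP : ∀ i ∈ C, (P i).Monic ∧ Irreducible (P i)) (hinj : ∀ i ∈ C, ∀ j ∈ C, P i = P j → i = j)
    (hd : ∀ i ∈ C, b.natDegree + L * a.natDegree < (P i).natDegree) (ε : ℝ) (hε : 0 < ε) :
    ∃ κ : ℝ, 0 < κ ∧ ∃ m₀ n₀ : ℕ, ∀ n : ℕ, n₀ ≤ n → ∀ m : ℕ, m₀ ≤ m → (m : ℝ) ≤ κ * n → ∀ j : Fin k,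
      |∑ p ∈ (Mn K n).filter (fun p => Irreducible ((T a b)^[s] p) ∧ (∀ i ∈ C, P i ∣ (T a b)^[i] p) ∧
          ∀ i, ∀ Q : K[X], Q.Monic → Irreducible Q → Q ∣ (T a b)^[t i] p → m < Q.natDegree),
        (mob ((T a b)^[t j] p) : ℝ)| ≤ ε * ((Mn K n).filter (fun p => Irreducible ((T a b)^[s] p) ∧
          (∀ i ∈ C, P i ∣ (T a b)^[i] p) ∧
          ∀ i, ∀ Q : K[X], Q.Monic → Irreducible Q → Q ∣ (T a b)^[t i] p → m < Q.natDegree)).card := by
  obtain ⟨M, c, hM, hc, hcls, hMQ⟩ := cls_data ha hb P C hP hinj hLC hL1 hd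
  have ha0 : a ≠ 0 := by
    rintro rfl
    rw [natDegree_zero] at ha
    omega
  have hM0 : M ≠ 0 := hM.ne_zero
  obtain ⟨κ, hκ, m₀, N, H⟩ := dick_sum s_cheng s_cntg K (k := k) (a ^ s * M) (fun i => a ^ t i * M)
    (mul_ne_zero (pow_ne_zero _ ha0) hM0) (fun i => mul_ne_zero (pow_ne_zero _ ha0) hM0) ε hε
  refine ⟨κ / 2, by positivity, m₀, N + 2 * M.natDegree + b.natDegree + 1, fun n hn m hm hmκ j => ?_⟩
  have hn1 : M.natDegree < n := by omega
  have hn2 : b.natDegree < n := by omega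
  have hn3 : N ≤ n - M.natDegree := by omega
  have hmκ' : (m : ℝ) ≤ κ * ((n - M.natDegree : ℕ) : ℝ) := by
    have h1 : (n : ℝ) ≤ 2 * ((n - M.natDegree : ℕ) : ℝ) := by
      have : n ≤ 2 * (n - M.natDegree) := by omega
      exact_mod_cast this
    calc (m : ℝ) ≤ κ / 2 * n := hmκ
      _ ≤ κ / 2 * (2 * ((n - M.natDegree : ℕ) : ℝ)) := mul_le_mul_of_nonneg_left h1 (by positivity)
      _ = κ * ((n - M.natDegree : ℕ) : ℝ) := by ring
  have hdeg : ∀ i : ℕ, ((T a b)^[i] c).natDegree < n - M.natDegree + (a ^ i * M).natDegree := by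
    intro i
    have h1 := deg_cls ha hc hn1 hn2 i
    rw [form_deg' ha0 hM0]
    omega
  have key := H (n - M.natDegree) hn3 m ((T a b)^[s] c) (fun i => (T a b)^[t i] c) hm hmκ' (hdeg s)
    (fun i => hdeg (t i)) (fun i => nonprop (c := c) ha hb hM0 (fun h => ht i h.symm)) j
  have hS : ((Mn K n).filter (fun p => Irreducible ((T a b)^[s] p) ∧ (∀ i ∈ C, P i ∣ (T a b)^[i] p) ∧
        ∀ i, ∀ Q : K[X], Q.Monic → Irreducible Q → Q ∣ (T a b)^[t i] p → m < Q.natDegree)) =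
      (Tf K (a ^ s * M) ((T a b)^[s] c) (fun i => a ^ t i * M) (fun i => (T a b)^[t i] c)
        (n - M.natDegree) m).image (fun g => M * g + c) := by
    ext p
    rw [mem_filter, mem_image]
    constructor
    · rintro ⟨h1, h2, h3, h4⟩
      obtain ⟨g, hg, e⟩ := map_surj hM hc hn1 h1 ((hcls p).1 h3)
      refine ⟨g, ?_, e⟩
      rw [mem_Tf]
      rw [mem_Mn] at hg
      refine ⟨hg, by rw [← iter_lin, e]; exact h2, fun i Q hQ hQi hQd => ?_⟩
      refine h4 i Q hQ hQi ?_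
      rw [← e, iter_lin]
      exact hQd
    · rintro ⟨g, hg, rfl⟩
      rw [mem_Tf] at hg
      refine ⟨map_mem hM hc hn1 (mem_Mn.2 hg.1), by rw [iter_lin]; exact hg.2.1, ?_,
        fun i Q hQ hQi hQd => ?_⟩
      · rw [hcls, add_sub_cancel_right]
        exact dvd_mul_right _ _
      · rw [iter_lin] at hQd
        exact hg.2.2 i Q hQ hQi hQd
  rw [hS, sum_image (fun g _ h _ e => map_inj hM e),
    card_image_of_injOn (fun g _ h _ e => map_inj hM e)]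
  refine (le_of_eq ?_).trans key
  congr 1
  refine sum_congr rfl fun g _ => ?_
  rw [iter_lin]

end Pool.Agent.H77.CC
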